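import Pool.Agent.Y342.SK.Sym

/-!
# A block construction of Hadamard matrices of order `4 μ (s + 1)`

From a skew conference matrix `C` of order `μ s` which commutes with `f ⊗ I`, where `f` is a
Hadamard matrix of order `μ`, and a skew conference matrix of order `s + 2`.
-/

set_option autoImplicit false
set_option linter.unusedSectionVars false

namespace Pool.Agent.H34PG

open Finset
open Pool.Agent.H108R3.Had (HasHad)
open Pool.Agent.Y342.SK (Sg)

/-- sign of a boolean -/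
def sg (b : Bool) : ℤ := if b then -1 else 1

theorem sg_sq (b : Bool) : sg b * sg b = 1 := by cases b <;> rfl

theorem sg_cases (b : Bool) : sg b = 1 ∨ sg b = -1 := by cases b <;> simp [sg]

/-- Kronecker delta -/
def del {α : Type} [DecidableEq α] (x y : α) : ℤ := if x = y then 1 else 0

theorem del_comm {α : Type} [DecidableEq α] (x y : α) : del x y = del y x := by
  simp only [del, eq_comm]

theorem sum_del_right {α : Type} [DecidableEq α] [Fintype α] (f : α → ℤ) (y : α) :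
    ∑ z, f z * del y z = f y := by
  simp [del]

theorem sum_del_left {α : Type} [DecidableEq α] [Fintype α] (f : α → ℤ) (y : α) :
    ∑ z, del y z * f z = f y := by
  simp [del]

/-- the data of the construction -/
structure Dat (A S : Type) [Fintype A] [DecidableEq A] [Fintype S] [DecidableEq S] where
  /-- the skew conference matrix -/
  C : A × S → A × S → ℤ
  /-- the Hadamard matrix -/
  f : A → A → ℤ
  /-- the inner part of the small skew conference matrix -/
  K : S → S → ℤ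
  /-- the border of the small skew conference matrix -/
  e : S → ℤ
  /-- order of `f` -/
  μ : ℤ
  /-- number of blocks -/
  s : ℤ
  C0 : ∀ p, C p p = 0
  C1 : ∀ p p', p ≠ p' → Sg (C p p')
  Cs : ∀ p p', C p' p = - C p p'
  CC : ∀ p p', ∑ z, C p z * C p' z = if p = p' then μ * s - 1 else 0
  f1 : ∀ a b, Sg (f a b)
  ff : ∀ a b, ∑ z, f a z * f b z = if a = b then μ else 0
  ff' : ∀ a b, ∑ z, f z a * f z b = if a = b then μ else 0
  com : ∀ a b m m', ∑ z, C (a, m) (z, m') * f z b = ∑ z, f a z * C (z, m) (b, m')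
  K0 : ∀ x, K x x = 0
  K1 : ∀ x y, x ≠ y → Sg (K x y)
  e1 : ∀ x, Sg (e x)
  es : ∑ x, e x = 0
  Kr : ∀ x, ∑ y, K x y = e x
  Ke : ∀ x, ∑ y, K x y * e y = -1
  KK : ∀ x y, ∑ z, K x z * K y z = (if x = y then s + 1 else 0) - 1 - e x * e y
  hA : (Fintype.card A : ℤ) = μ
  hS : (Fintype.card S : ℤ) = s

/-- first border pattern -/
def B0 : Bool → Bool → Fin 4 → ℤ
  | false, false => ![1, 1, 0, 0]
  | false, true => ![0, 0, 1, 1]
  | true, false => ![1, -1, 0, 0]
  | true, true => ![0, 0, 1, -1]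

/-- second border pattern -/
def B1 : Bool → Bool → Fin 4 → ℤ
  | false, false => ![1, 1, 0, 0]
  | false, true => ![0, 0, 1, 1]
  | true, false => ![0, 0, 1, -1]
  | true, true => ![1, -1, 0, 0]

/-- corner pattern -/
def G4 : Fin 4 → Fin 4 → ℤ :=
  ![![-1, 1, -1, -1], ![-1, 1, 1, 1], ![1, 1, 1, -1], ![-1, -1, 1, -1]]

theorem B0_B0 (b b' c c' : Bool) :
    ∑ k, B0 b c k * B0 b' c' k = if b = b' ∧ c = c' then 2 else 0 := by
  revert b b' c c'; decide

theorem B1_B1 (k k' : Fin 4) :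
    ∑ b : Bool, ∑ c : Bool, B1 b c k * B1 b c k' = if k = k' then 2 else 0 := by
  revert k k'; decide

theorem B0_G4f (b : Bool) (k' : Fin 4) : ∑ k, B0 b false k * G4 k k' = -2 * B1 (!b) true k' := by
  revert b k'; decide

theorem B0_G4t (b : Bool) (k' : Fin 4) : ∑ k, B0 b true k * G4 k k' = 2 * B1 (!b) false k' := by
  revert b k'; decide

theorem G4_G4 (k k' : Fin 4) : ∑ j, G4 j k * G4 j k' = if k = k' then 4 else 0 := by
  revert k k'; decide

theorem G4_sign (k k' : Fin 4) : Sg (G4 k k') := by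
  revert k k'; simp only [Sg]; decide

theorem B0_sign {x : ℤ} (hx : Sg x) (b : Bool) (k : Fin 4) :
    Sg (B0 b false k + x * B0 b true k) := by
  rcases hx with hx | hx <;> subst hx <;> revert b k <;> simp only [Sg] <;> decide

theorem B1_sign {x : ℤ} (hx : Sg x) (b : Bool) (k : Fin 4) :
    Sg (B1 b false k + x * B1 b true k) := by
  rcases hx with hx | hx <;> subst hx <;> revert b k <;> simp only [Sg] <;> decide

theorem Sg.mul' {a b : ℤ} (ha : Sg a) (hb : Sg b) : Sg (a * b) := by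
  rcases ha with h | h <;> rcases hb with h' | h' <;> rw [h, h'] <;> simp [Sg]

theorem Sg.neg' {a : ℤ} (ha : Sg a) : Sg (-a) := by
  rcases ha with h | h <;> rw [h] <;> simp [Sg]

theorem Sg.sq' {a : ℤ} (ha : Sg a) : a * a = 1 := by
  rcases ha with h | h <;> rw [h] <;> norm_num

namespace Dat

variable {A S : Type} [Fintype A] [DecidableEq A] [Fintype S] [DecidableEq S] (D : Dat A S)

/-- `f ⊗ I` -/
def F (p p' : A × S) : ℤ := if p.2 = p'.2 then D.f p.1 p'.1 else 0

/-- `f ⊗ K` -/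
def Z (p p' : A × S) : ℤ := D.f p.1 p'.1 * D.K p.2 p'.2

theorem sum_F_right (g : A × S → ℤ) (p : A × S) :
    ∑ z, g z * D.F p z = ∑ a, g (a, p.2) * D.f p.1 a := by
  rw [Fintype.sum_prod_type]
  refine sum_congr rfl fun a _ => ?_
  simp [F]

theorem sum_F_right' (g : A × S → ℤ) (p : A × S) :
    ∑ z, g z * D.F z p = ∑ a, g (a, p.2) * D.f a p.1 := by
  rw [Fintype.sum_prod_type]
  refine sum_congr rfl fun a _ => ?_
  simp [F]

theorem FF (p p' : A × S) : ∑ z, D.F p z * D.F p' z = if p = p' then D.μ else 0 := by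
  rw [D.sum_F_right]
  obtain ⟨a, m⟩ := p
  obtain ⟨a', m'⟩ := p'
  simp only [F, Prod.mk.injEq]
  by_cases hm : m = m'
  · simp only [hm, if_true, and_true]
    exact D.ff a a'
  · simp [hm]

theorem FF' (p p' : A × S) : ∑ z, D.F z p * D.F z p' = if p = p' then D.μ else 0 := by
  rw [D.sum_F_right']
  obtain ⟨a, m⟩ := p
  obtain ⟨a', m'⟩ := p'
  simp only [F, Prod.mk.injEq]
  by_cases hm : m = m'
  · simp only [hm, if_true, and_true]
    exact D.ff' a a'
  · have hm' : ¬ m' = m := fun h => hm h.symm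
    simp [hm, hm']

theorem CF (p p' : A × S) : ∑ z, D.C p z * D.F z p' = ∑ z, D.F p z * D.C z p' := by
  have h1 : ∑ z, D.F p z * D.C z p' = ∑ z, D.C z p' * D.F p z :=
    sum_congr rfl fun z _ => mul_comm _ _
  rw [h1, D.sum_F_right, D.sum_F_right']
  obtain ⟨a, m⟩ := p
  obtain ⟨b, m'⟩ := p'
  simp only
  rw [D.com]
  exact sum_congr rfl fun z _ => mul_comm _ _

/-- the part with `C` -/
def U : Bool × (A × S) → Bool × (A × S) → ℤ
  | (false, p), (false, p') => D.C p p' + del p p'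
  | (false, p), (true, p') => D.F p p'
  | (true, p), (false, p') => D.F p' p
  | (true, p), (true, p') => D.C p p' - del p p'

/-- the part with `K` -/
def V (r r' : Bool × (A × S)) : ℤ := if r'.1 = !r.1 then D.Z r.2 r'.2 else 0

theorem CC1 (c c' : ℤ) (p p' : A × S) :
    ∑ z, (D.C p z + c * del p z) * (D.C p' z + c' * del p' z) =
      (if p = p' then D.μ * D.s - 1 + c * c' else 0) + (c' - c) * D.C p p' := by
  have h1 : ∀ z, (D.C p z + c * del p z) * (D.C p' z + c' * del p' z) =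
      D.C p z * D.C p' z + c' * (D.C p z * del p' z) + c * (del p z * D.C p' z) +
        c * c' * (del p z * del p' z) := fun z => by ring
  rw [sum_congr rfl fun z _ => h1 z]
  simp only [sum_add_distrib, ← mul_sum, D.CC, sum_del_left, sum_del_right]
  rw [D.Cs p p']
  simp only [del]
  by_cases h : p = p'
  · subst h; simp; ring
  · have h' : ¬ p' = p := fun h'' => h h''.symm
    simp [h, h']; ring

theorem UU (r r' : Bool × (A × S)) : ∑ z, D.U r z * D.U r' z =
    if r = r' then D.μ * (D.s + 1) else 0 := by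
  obtain ⟨b, p⟩ := r
  obtain ⟨b', p'⟩ := r'
  rw [Fintype.sum_prod_type, Fintype.sum_bool]
  have hCF := D.CF p p'
  have hCF' := D.CF p' p
  have hFr : ∀ p p' : A × S, ∑ z, D.F p z * D.C p' z = - ∑ z, D.F p z * D.C z p' := by
    intro p p'
    rw [← sum_neg_distrib]
    exact sum_congr rfl fun z _ => by rw [D.Cs z p']; ring
  cases b <;> cases b' <;> simp only [U, Prod.mk.injEq, true_and, false_and, if_false,
    reduceCtorEq]
  · have h1 := D.CC1 1 1 p p'
    simp only [one_mul, sub_self, zero_mul, add_zero] at h1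
    rw [h1, D.FF]
    by_cases h : p = p' <;> simp [h]
    ring
  · have h1 : ∀ z, (D.C p z + del p z) * D.F z p' = D.C p z * D.F z p' + del p z * D.F z p' :=
      fun z => by ring
    have h2 : ∀ z, D.F p z * (D.C p' z - del p' z) = D.F p z * D.C p' z - D.F p z * del p' z :=
      fun z => by ring
    rw [sum_congr rfl fun z _ => h1 z, sum_congr rfl fun z _ => h2 z, sum_add_distrib,
      sum_sub_distrib, sum_del_left, sum_del_right, hFr, hCF]
    ring
  · have h1 : ∀ z, D.F z p * (D.C p' z + del p' z) = D.C p' z * D.F z p + D.F z p * del p' z :=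
      fun z => by ring
    have h2 : ∀ z, (D.C p z - del p z) * D.F p' z = D.F p' z * D.C p z - del p z * D.F p' z :=
      fun z => by ring
    rw [sum_congr rfl fun z _ => h1 z, sum_congr rfl fun z _ => h2 z, sum_add_distrib,
      sum_sub_distrib, sum_del_left, sum_del_right, hFr, hCF']
    ring
  · have h1 := D.CC1 (-1) (-1) p p'
    simp only [neg_mul, one_mul, sub_self, zero_mul, add_zero, neg_neg, mul_neg,
      ← sub_eq_add_neg] at h1
    rw [h1, D.FF']
    by_cases h : p = p' <;> simp [h]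
    ring

theorem ZZ (p p' : A × S) : ∑ z, D.Z p z * D.Z p' z =
    (if p.1 = p'.1 then D.μ else 0) *
      ((if p.2 = p'.2 then D.s + 1 else 0) - 1 - D.e p.2 * D.e p'.2) := by
  rw [← D.ff, ← D.KK, Fintype.sum_prod_type, sum_mul]
  refine sum_congr rfl fun a _ => ?_
  rw [mul_sum]
  exact sum_congr rfl fun m _ => by simp only [Z]; ring

theorem sum_V (g : Bool × (A × S) → ℤ) (r : Bool × (A × S)) :
    ∑ z, D.V r z * g z = ∑ p, D.Z r.2 p * g (!r.1, p) := by
  obtain ⟨b, p⟩ := r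
  rw [Fintype.sum_prod_type, Fintype.sum_bool]
  cases b <;> simp [V]

theorem VV (r r' : Bool × (A × S)) : ∑ z, D.V r z * D.V r' z =
    (if r.1 = r'.1 then 1 else 0) * ((if r.2.1 = r'.2.1 then D.μ else 0) *
      ((if r.2.2 = r'.2.2 then D.s + 1 else 0) - 1 - D.e r.2.2 * D.e r'.2.2)) := by
  rw [D.sum_V]
  by_cases h : r.1 = r'.1
  · simp only [V, h, if_true, one_mul]
    exact D.ZZ _ _
  · have h' : ¬ (!r.1) = !r'.1 := fun h'' => h (by simpa using h'')
    simp [V, h, h']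

/-- entries of the right border, up to a factor -/
def w0 (r : Bool × S) (k : Fin 4) : ℤ := B0 r.1 false k + D.e r.2 * B0 r.1 true k

/-- entries of the lower border, up to a factor -/
def w1 (r : Bool × S) (k : Fin 4) : ℤ := B1 r.1 false k + D.e r.2 * B1 r.1 true k

theorem w0_w0 (r r' : Bool × S) : ∑ k, D.w0 r k * D.w0 r' k =
    (if r.1 = r'.1 then 1 else 0) * (2 * (1 + D.e r.2 * D.e r'.2)) := by
  have h1 : ∀ k, D.w0 r k * D.w0 r' k = B0 r.1 false k * B0 r'.1 false k +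
      D.e r'.2 * (B0 r.1 false k * B0 r'.1 true k) + D.e r.2 * (B0 r.1 true k * B0 r'.1 false k) +
      D.e r.2 * D.e r'.2 * (B0 r.1 true k * B0 r'.1 true k) := fun k => by
    simp only [w0]; ring
  rw [sum_congr rfl fun k _ => h1 k]
  simp only [sum_add_distrib, ← mul_sum, B0_B0]
  by_cases h : r.1 = r'.1 <;> simp [h]
  ring

theorem w0_G4 (r : Bool × S) (k' : Fin 4) : ∑ k, D.w0 r k * G4 k k' =
    2 * (D.e r.2 * B1 (!r.1) false k' - B1 (!r.1) true k') := by
  have h1 : ∀ k, D.w0 r k * G4 k k' = B0 r.1 false k * G4 k k' +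
      D.e r.2 * (B0 r.1 true k * G4 k k') := fun k => by
    simp only [w0]; ring
  rw [sum_congr rfl fun k _ => h1 k]
  simp only [sum_add_distrib, ← mul_sum, B0_G4f, B0_G4t]
  ring

theorem K_w1 (b : Bool) (m : S) (k' : Fin 4) : ∑ m', D.K m m' * D.w1 (b, m') k' =
    D.e m * B1 b false k' - B1 b true k' := by
  have h1 : ∀ m', D.K m m' * D.w1 (b, m') k' = D.K m m' * B1 b false k' +
      D.K m m' * D.e m' * B1 b true k' := fun k => by
    simp only [w1]; ring
  rw [sum_congr rfl fun k _ => h1 k]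
  simp only [sum_add_distrib, ← sum_mul, D.Kr, D.Ke]
  ring

theorem w1_w1 (k k' : Fin 4) : ∑ b : Bool, ∑ m : S, D.w1 (b, m) k * D.w1 (b, m) k' =
    2 * D.s * if k = k' then 1 else 0 := by
  have h1 : ∀ (b : Bool) (m : S), D.w1 (b, m) k * D.w1 (b, m) k' =
      (B1 b false k * B1 b false k' + B1 b true k * B1 b true k') +
      D.e m * (B1 b false k * B1 b true k' + B1 b true k * B1 b false k') := fun b m => by
    have h2 := Sg.sq' (D.e1 m)
    simp only [w1]
    linear_combination (B1 b true k * B1 b true k') * h2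
  have h2 : ∀ b : Bool, ∑ m : S, D.w1 (b, m) k * D.w1 (b, m) k' =
      D.s * ∑ c : Bool, B1 b c k * B1 b c k' := by
    intro b
    rw [sum_congr rfl fun m _ => h1 b m, sum_add_distrib, ← sum_mul, D.es, sum_const, card_univ,
      nsmul_eq_mul, D.hS, Fintype.sum_bool]
    ring
  rw [sum_congr rfl fun b _ => h2 b, ← mul_sum, B1_B1]
  split_ifs <;> ring

/-- the matrix -/
def M : ((Bool × (A × S)) × Bool) ⊕ (A × Fin 4) → ((Bool × (A × S)) × Bool) ⊕ (A × Fin 4) → ℤ
  | Sum.inl r, Sum.inl r' => D.U r.1 r'.1 + sg r.2 * sg r'.2 * D.V r.1 r'.1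
  | Sum.inl r, Sum.inr c => sg r.2 * (D.f r.1.2.1 c.1 * D.w0 (r.1.1, r.1.2.2) c.2)
  | Sum.inr c, Sum.inl r => sg r.2 * (D.f r.1.2.1 c.1 * D.w1 (r.1.1, r.1.2.2) c.2)
  | Sum.inr c, Sum.inr c' => - (D.f c'.1 c.1 * G4 c'.2 c.2)

theorem UV_sign (t : ℤ) (ht : Sg t) (r r' : Bool × (A × S)) : Sg (D.U r r' + t * D.V r r') := by
  obtain ⟨b, a, m⟩ := r
  obtain ⟨b', a', m'⟩ := r'
  have hf := D.f1 a a'
  have hf' := D.f1 a' a
  cases b <;> cases b' <;> simp only [U, V, F, Z, del]
  · by_cases h : (a, m) = (a', m')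
    · rw [h, D.C0]; simp [Sg]
    · have := D.C1 _ _ h
      simpa [h] using this
  · by_cases h : m = m'
    · subst h
      simp only [D.K0]
      simpa using hf
    · have := D.K1 _ _ h
      simp only [h, if_false]
      simpa using Sg.mul' ht (Sg.mul' hf this)
  · by_cases h : m = m'
    · subst h
      simp only [D.K0]
      simpa using hf'
    · have := D.K1 _ _ h
      have h' : ¬ m' = m := fun h'' => h h''.symm
      simp only [h', if_false]
      simpa using Sg.mul' ht (Sg.mul' hf this)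
  · by_cases h : (a, m) = (a', m')
    · rw [h, D.C0]; simp [Sg]
    · have := D.C1 _ _ h
      simpa [h] using this

theorem M_sign (p p' : ((Bool × (A × S)) × Bool) ⊕ (A × Fin 4)) :
    D.M p p' = 1 ∨ D.M p p' = -1 := by
  rcases p with r | c <;> rcases p' with r' | c'
  · exact D.UV_sign _ (Sg.mul' (sg_cases _) (sg_cases _)) _ _
  · exact Sg.mul' (sg_cases _) (Sg.mul' (D.f1 _ _) (B0_sign (D.e1 _) _ _))
  · exact Sg.mul' (sg_cases _) (Sg.mul' (D.f1 _ _) (B1_sign (D.e1 _) _ _))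
  · exact Sg.neg' (Sg.mul' (D.f1 _ _) (G4_sign _ _))

omit [DecidableEq A] in
theorem sum_split_mul (m : A → ℤ) (g : Fin 4 → ℤ) :
    ∑ c : A × Fin 4, (m c.1 * g c.2) = (∑ a, m a) * ∑ k, g k := by
  rw [Fintype.sum_prod_type, sum_mul]
  exact sum_congr rfl fun a _ => by rw [mul_sum]

theorem inl_inl (r r' : (Bool × (A × S)) × Bool) :
    ∑ z, D.M (Sum.inl r) z * D.M (Sum.inl r') z =
      if r = r' then 4 * (D.μ * (D.s + 1)) else 0 := by
  rw [Fintype.sum_sum_type]
  simp only [M]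
  rw [Fintype.sum_prod_type]
  have h1 : ∀ z : Bool × (A × S), ∑ t : Bool, (D.U r.1 z + sg r.2 * sg t * D.V r.1 z) *
      (D.U r'.1 z + sg r'.2 * sg t * D.V r'.1 z) =
      2 * (D.U r.1 z * D.U r'.1 z) + 2 * (sg r.2 * sg r'.2) * (D.V r.1 z * D.V r'.1 z) := by
    intro z
    rw [Fintype.sum_bool]
    simp only [sg, if_true, Bool.false_eq_true, if_false]
    ring
  rw [sum_congr rfl fun z _ => h1 z, sum_add_distrib, ← mul_sum, ← mul_sum, D.UU, D.VV]
  have h2 : ∀ c : A × Fin 4, sg r.2 * (D.f r.1.2.1 c.1 * D.w0 (r.1.1, r.1.2.2) c.2) *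
      (sg r'.2 * (D.f r'.1.2.1 c.1 * D.w0 (r'.1.1, r'.1.2.2) c.2)) =
      (sg r.2 * sg r'.2) * ((D.f r.1.2.1 c.1 * D.f r'.1.2.1 c.1) *
        (D.w0 (r.1.1, r.1.2.2) c.2 * D.w0 (r'.1.1, r'.1.2.2) c.2)) := fun c => by ring
  rw [sum_congr rfl fun c _ => h2 c, ← mul_sum,
    sum_split_mul (fun a => D.f r.1.2.1 a * D.f r'.1.2.1 a)
      (fun k => D.w0 (r.1.1, r.1.2.2) k * D.w0 (r'.1.1, r'.1.2.2) k), D.ff, D.w0_w0]
  obtain ⟨⟨b, a, m⟩, t⟩ := r
  obtain ⟨⟨b', a', m'⟩, t'⟩ := r'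
  simp only [Prod.mk.injEq]
  by_cases hb : b = b' <;> by_cases ha : a = a' <;> by_cases hm : m = m' <;>
    simp only [hb, ha, hm, if_true, if_false, and_true, true_and, false_and, and_false, zero_mul,
      mul_zero, add_zero] <;> try ring1
  cases t <;> cases t' <;> simp [sg] <;> ring

theorem inl_inr (r : (Bool × (A × S)) × Bool) (c : A × Fin 4) :
    ∑ z, D.M (Sum.inl r) z * D.M (Sum.inr c) z = 0 := by
  rw [Fintype.sum_sum_type]
  simp only [M]
  rw [Fintype.sum_prod_type]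
  have h1 : ∀ z : Bool × (A × S), ∑ t : Bool, (D.U r.1 z + sg r.2 * sg t * D.V r.1 z) *
      (sg t * (D.f z.2.1 c.1 * D.w1 (z.1, z.2.2) c.2)) =
      2 * sg r.2 * (D.V r.1 z * (D.f z.2.1 c.1 * D.w1 (z.1, z.2.2) c.2)) := by
    intro z
    rw [Fintype.sum_bool]
    simp only [sg, if_true, Bool.false_eq_true, if_false]
    ring
  rw [sum_congr rfl fun z _ => h1 z, ← mul_sum, D.sum_V, Fintype.sum_prod_type]
  have h2 : ∀ a : A, ∑ m : S, D.Z r.1.2 (a, m) *
      (D.f a c.1 * D.w1 (!r.1.1, m) c.2) =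
      (D.f r.1.2.1 a * D.f a c.1) *
        (D.e r.1.2.2 * B1 (!r.1.1) false c.2 - B1 (!r.1.1) true c.2) := by
    intro a
    rw [← D.K_w1, mul_sum]
    refine sum_congr rfl fun m _ => ?_
    simp only [Z]
    ring
  simp only
  rw [sum_congr rfl fun a _ => h2 a, ← sum_mul]
  have h3 : ∀ d : A × Fin 4, sg r.2 * (D.f r.1.2.1 d.1 * D.w0 (r.1.1, r.1.2.2) d.2) *
      -(D.f d.1 c.1 * G4 d.2 c.2) =
      -sg r.2 * ((D.f r.1.2.1 d.1 * D.f d.1 c.1) *
        (D.w0 (r.1.1, r.1.2.2) d.2 * G4 d.2 c.2)) := fun d => by ring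
  rw [sum_congr rfl fun d _ => h3 d, ← mul_sum,
    sum_split_mul (fun a => D.f r.1.2.1 a * D.f a c.1)
      (fun k => D.w0 (r.1.1, r.1.2.2) k * G4 k c.2), D.w0_G4]
  ring

theorem inr_inr (c c' : A × Fin 4) :
    ∑ z, D.M (Sum.inr c) z * D.M (Sum.inr c') z =
      if c = c' then 4 * (D.μ * (D.s + 1)) else 0 := by
  rw [Fintype.sum_sum_type]
  simp only [M]
  rw [Fintype.sum_prod_type]
  have h1 : ∀ z : Bool × (A × S), ∑ t : Bool,
      (sg t * (D.f z.2.1 c.1 * D.w1 (z.1, z.2.2) c.2)) *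
      (sg t * (D.f z.2.1 c'.1 * D.w1 (z.1, z.2.2) c'.2)) =
      2 * ((D.f z.2.1 c.1 * D.f z.2.1 c'.1) *
        (D.w1 (z.1, z.2.2) c.2 * D.w1 (z.1, z.2.2) c'.2)) := by
    intro z
    rw [Fintype.sum_bool]
    simp only [sg, if_true, Bool.false_eq_true, if_false]
    ring
  rw [sum_congr rfl fun z _ => h1 z, ← mul_sum]
  have h2 : ∑ z : Bool × (A × S), (D.f z.2.1 c.1 * D.f z.2.1 c'.1) *
        (D.w1 (z.1, z.2.2) c.2 * D.w1 (z.1, z.2.2) c'.2) =
      (if c.1 = c'.1 then D.μ else 0) * (2 * D.s * if c.2 = c'.2 then 1 else 0) := by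
    rw [← D.ff', ← D.w1_w1, Fintype.sum_prod_type, mul_sum]
    refine sum_congr rfl fun b _ => ?_
    rw [Fintype.sum_prod_type, sum_mul]
    refine sum_congr rfl fun a _ => ?_
    rw [mul_sum]
  rw [h2]
  have h3 : ∀ d : A × Fin 4, -(D.f d.1 c.1 * G4 d.2 c.2) * -(D.f d.1 c'.1 * G4 d.2 c'.2) =
      (D.f d.1 c.1 * D.f d.1 c'.1) * (G4 d.2 c.2 * G4 d.2 c'.2) := fun d => by ring
  rw [sum_congr rfl fun d _ => h3 d,
    sum_split_mul (fun a => D.f a c.1 * D.f a c'.1) (fun k => G4 k c.2 * G4 k c'.2), D.ff',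
    G4_G4]
  obtain ⟨a, k⟩ := c
  obtain ⟨a', k'⟩ := c'
  simp only [Prod.mk.injEq]
  by_cases ha : a = a' <;> by_cases hk : k = k' <;> simp [ha, hk]
  ring

theorem main_row (p p' : ((Bool × (A × S)) × Bool) ⊕ (A × Fin 4)) :
    ∑ z, D.M p z * D.M p' z = if p = p' then 4 * (D.μ * (D.s + 1)) else 0 := by
  rcases p with r | c <;> rcases p' with r' | c'
  · rw [D.inl_inl]; simp only [Sum.inl.injEq]
  · rw [D.inl_inr]; simp
  · have h1 : ∑ z, D.M (Sum.inr c) z * D.M (Sum.inl r') z =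
        ∑ z, D.M (Sum.inl r') z * D.M (Sum.inr c) z := sum_congr rfl fun z _ => mul_comm _ _
    rw [h1, D.inl_inr]; simp
  · rw [D.inr_inr]; simp only [Sum.inr.injEq]

include D in
theorem hasHad (n : ℕ) (hn : (n : ℤ) = 4 * (D.μ * (D.s + 1))) : HasHad n := by
  apply Pool.Agent.TH432.Had.had_reindex
    (ι := ((Bool × (A × S)) × Bool) ⊕ (A × Fin 4)) _ D.M D.M_sign
  · intro p p'
    rw [D.main_row, hn]
  · have h1 := D.hA
    have h2 := D.hS
    simp only [Fintype.card_sum, Fintype.card_prod, Fintype.card_bool, Fintype.card_fin]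
    zify
    rw [hn, ← h1, ← h2]
    ring

end Dat

end Pool.Agent.H34PG
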