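import Pool.Agent.H34PG.QField

/-!
# Hadamard matrices of order `4 (q + 1 + 2 g)`
-/

set_option autoImplicit false
set_option linter.unusedSectionVars false

namespace Pool.Agent.H34PG

open Finset
open Pool.Agent.H108R3.Had (HasHad)
open Pool.Agent.W851.Had (tow)
open Pool.Agent.Y342.SK (Sg)

section field

variable {F : Type} [Field F] [Fintype F] [DecidableEq F]

/-- Hadamard matrices of order `8 g (s + 1)` -/
theorem had_of_field (h4 : Fintype.card F % 4 = 3) {g : ℕ} (hG : NegaGolay g) {s : ℕ}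
    (hs : 2 * g * s = Fintype.card F + 1) {K : Fin (s + 1) → Fin (s + 1) → ℤ}
    (hK : Pool.Agent.Y342.SK.IsCore K) : HasHad (8 * g * (s + 1)) := by
  classical
  have hg0 : NeZero g := ⟨hG.1.ne'⟩
  obtain ⟨t, ht⟩ := exists_tr (g := g)
  obtain ⟨a⟩ := exists_act h4 ⟨s, hs.symm⟩ t ht
  obtain ⟨k, k1, kz, kl, kr⟩ := hG.toK
  rw [← ht] at kz kl kr
  have : Fintype a.S := Fintype.ofFinite _
  have hA : (Fintype.card {x // t.T x} : ℤ) = 2 * g := by
    have h := t.card
    rw [QuaternionGroup.card] at h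
    push_cast at h
    linarith
  have hS : (Fintype.card a.S : ℤ) = s := by
    have h := a.card_mul
    rw [hA] at h
    have h1 : (2 * g * s : ℤ) = Fintype.card F + 1 := by exact_mod_cast hs
    have h2 : (2 * (g : ℤ)) ≠ 0 := by
      have := hG.1
      positivity
    exact mul_left_cancel₀ h2 (by rw [h, h1])
  have hS' : Fintype.card a.S = s := by exact_mod_cast hS
  have hmul : ∀ x y, ∑ z, K x z * K y z = (if x = y then ((s + 1 : ℕ) : ℤ) else 0) - 1 := hK.mul
  let f : a.S ≃ Fin s := Fintype.equivFinOfCardEq hS'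
  let D : Dat {x // t.T x} a.S :=
    { C := a.C
      f := fun x y => k (x * (y : QuaternionGroup g)⁻¹)
      K := fun x y => K (f x).succ (f y).succ
      e := fun x => K 0 (f x).succ
      μ := 2 * g
      s := s
      C0 := a.C0
      C1 := a.C1
      Cs := a.Cs h4
      CC := fun p p' => by
        rw [a.CC h4]
        have h1 : (2 * g * s : ℤ) = Fintype.card F + 1 := by exact_mod_cast hs
        split_ifs
        · linarith
        · rfl
      f1 := fun x y => k1 _
      ff := fun x y => by rw [t.ff k k1 kz kl, hA]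
      ff' := fun x y => by rw [t.ff' k k1 kz kr, hA]
      com := fun x y m m' => a.com h4 k kz x y m m'
      K0 := fun x => hK.diag _
      K1 := fun x y hxy => hK.sign _ _ fun h => hxy (f.injective (Fin.succ_injective _ h))
      e1 := fun x => hK.sign _ _ (Fin.succ_ne_zero _).symm
      es := by
        rw [Equiv.sum_comp f (fun y => K 0 y.succ)]
        have h := hK.row 0
        rw [Fin.sum_univ_succ, hK.diag 0] at h
        linarith
      Kr := fun x => by
        rw [Equiv.sum_comp f (fun y => K (f x).succ y.succ)]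
        have h := hK.row (f x).succ
        rw [Fin.sum_univ_succ, hK.skew 0 (f x).succ] at h
        linarith
      Ke := fun x => by
        rw [Equiv.sum_comp f (fun y => K (f x).succ y.succ * K 0 y.succ)]
        have h := hmul (f x).succ 0
        rw [Fin.sum_univ_succ, hK.diag 0, if_neg (Fin.succ_ne_zero _)] at h
        linarith
      KK := fun x y => by
        rw [Equiv.sum_comp f (fun z => K (f x).succ z.succ * K (f y).succ z.succ)]
        have h := hmul (f x).succ (f y).succ
        rw [Fin.sum_univ_succ, hK.skew 0 (f x).succ, hK.skew 0 (f y).succ] at h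
        by_cases hxy : x = y
        · rw [if_pos (by rw [hxy])] at h
          rw [if_pos hxy]
          push_cast at h
          linarith
        · rw [if_neg fun h' => hxy (f.injective (Fin.succ_injective _ h'))] at h
          rw [if_neg hxy]
          linarith
      hA := hA
      hS := hS }
  refine D.hasHad _ ?_
  show ((8 * g * (s + 1) : ℕ) : ℤ) = 4 * ((2 * (g : ℤ)) * ((s : ℤ) + 1))
  push_cast
  ring

/-- Paley type negaperiodic Golay pairs -/
theorem negaGolay_of_field (h4 : Fintype.card F % 4 = 3) {g : ℕ}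
    (hs : 2 * g = Fintype.card F + 1) : NegaGolay g := by
  classical
  have hg : 0 < g := by omega
  have hg0 : NeZero g := ⟨hg.ne'⟩
  obtain ⟨t, ht⟩ := exists_tr (g := g)
  obtain ⟨a⟩ := exists_act h4 (Dvd.intro 1 (by rw [mul_one]; exact hs)) t ht
  have : Fintype a.S := Fintype.ofFinite _
  have hne : Nonempty a.S := ⟨Quotient.mk a.setoid ⟨(1, 0), by simp⟩⟩
  obtain ⟨m⟩ := hne
  have hA : (Fintype.card {x // t.T x} : ℤ) = 2 * g := by
    have h := t.card
    rw [QuaternionGroup.card] at h
    push_cast at h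
    linarith
  have hS : (Fintype.card a.S : ℤ) = 1 := by
    have h := a.card_mul
    rw [hA] at h
    have h1 : (2 * g : ℤ) = Fintype.card F + 1 := by exact_mod_cast hs
    have h2 : (2 * (g : ℤ)) ≠ 0 := by positivity
    exact mul_left_cancel₀ h2 (by rw [h, h1, mul_one])
  have hS' : Fintype.card a.S = 1 := by exact_mod_cast hS
  have hsub : ∀ m' : a.S, m' = m := fun m' => Fintype.card_le_one_iff.1 hS'.le _ _
  let h : QuaternionGroup g → ℤ := a.h m m
  have h0 : h 1 = 0 := by
    simp only [h, Act.h]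
    rw [a.a1, ph_self]
    simp
  have hz : ∀ x, h (t.z * x) = - h x := a.h_z h4 m m
  have hz0 : h t.z = 0 := by
    have := hz 1
    rwa [mul_one, h0, neg_zero] at this
  have h1 : ∀ x, x ≠ 1 → x ≠ t.z → Sg (h x) := by
    intro x hx1 hxz
    apply quadraticChar_dichotomy
    intro h0
    obtain ⟨c, hc, h1⟩ := ph_eq_zero (a.rep_ne m) (a.act_ne (a.rep_ne m)) h0
    rcases a.af _ _ _ (a.rep_ne m) h1 with h2 | h2
    · exact hx1 h2
    · exact hxz h2
  have hinv : ∀ x, h x⁻¹ = - h x := by
    intro x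
    simp only [h, Act.h]
    rw [← a.ph_act, ph_swap, Pool.Agent.R110.Had.chi3_neg h4]
  -- correlation of `h`
  have hcor : ∀ w, w ≠ 1 → w ≠ t.z → ∑ x, h x * h (x * w) = 0 := by
    intro w hw1 hwz
    obtain ⟨Ψ, hΨ⟩ : ∃ Ψ : F × F → ℤ, Ψ = fun v => quadraticChar F (ph (a.rep m) v) *
      quadraticChar F (ph (a.act w (a.rep m)) v) := ⟨_, rfl⟩
    have hΨs : ∀ (c : F) v, c ≠ 0 → Ψ (c • v) = Ψ v := by
      intro c v hc
      rw [hΨ]
      simp only [ph_smul, map_mul]
      linear_combination (quadraticChar F (ph (a.rep m) v) *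
        quadraticChar F (ph (a.act w (a.rep m)) v)) * Pool.Agent.TH432.Had.chi_sq hc
    have e1 : ∑ x, h x * h (x * w) = ∑ y, Ψ (a.act y (a.rep m)) := by
      rw [← Equiv.sum_comp (Equiv.inv (QuaternionGroup g)) (fun y => Ψ (a.act y (a.rep m)))]
      refine sum_congr rfl fun x _ => ?_
      simp only [Equiv.inv_apply, hΨ]
      have e2 : quadraticChar F (ph (a.rep m) (a.act x⁻¹ (a.rep m))) = - h x := by
        rw [← hinv]
        rfl
      have e3 : quadraticChar F (ph (a.act w (a.rep m)) (a.act x⁻¹ (a.rep m))) =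
          - h (x * w) := by
        rw [ph_swap, Pool.Agent.R110.Had.chi3_neg h4, a.ph_act, inv_inv, ← a.am]
        rfl
      rw [e2, e3]
      ring
    have e2 := t.sum (fun y => Ψ (a.act y (a.rep m))) (fun x => by
      rw [a.am, a.az, ← neg_one_smul F]
      exact hΨs _ _ (by simp))
    have e3 := a.sum_pts Ψ (by rw [hΨ]; simp [ph]) hΨs
    have e4 : ∑ p, Ψ (a.pt p) = ∑ x : {x // t.T x}, Ψ (a.act x (a.rep m)) := by
      rw [Fintype.sum_prod_type]
      refine sum_congr rfl fun x _ => ?_
      rw [Fintype.sum_eq_single m (fun m' hm' => absurd (hsub m') hm')]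
      rfl
    have e5 : ph (a.rep m) (a.act w (a.rep m)) ≠ 0 := by
      intro h0
      obtain ⟨c, hc, h1⟩ := ph_eq_zero (a.rep_ne m) (a.act_ne (a.rep_ne m)) h0
      rcases a.af _ _ _ (a.rep_ne m) h1 with h2 | h2
      · exact hw1 h2
      · exact hwz h2
    have e6 : ∑ v, Ψ v = 0 := by
      rw [hΨ]
      exact sum_chi_ph2 h4 e5
    rw [e6, e4] at e3
    have e7 : (Fintype.card F : ℤ) - 1 ≠ 0 := by
      have := Fintype.one_lt_card (α := F)
      omega
    have e8 := (mul_eq_zero.1 e3.symm).resolve_left e7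
    rw [e1, e2, e8, mul_zero]
  have hz1 : t.z ≠ 1 := by
    intro h'
    have := hz 1
    rcases t.T1 1 with hT | hT
    · have h2 := t.T2 1 hT
      rw [h', one_mul] at h2
      exact h2 hT
    · have h2 := t.T2 _ hT
      rw [h', one_mul, one_mul] at h2
      rw [h', one_mul] at hT
      exact h2 hT
  obtain ⟨k, hk⟩ : ∃ k : QuaternionGroup g → ℤ, k = fun x =>
    h x + (if x = 1 then 1 else 0) - (if x = t.z then 1 else 0) := ⟨_, rfl⟩
  refine NegaGolay.ofK k ?_ ?_ ?_
  · intro x
    rw [hk]
    simp only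
    by_cases hx1 : x = 1
    · subst hx1
      rw [h0, if_pos rfl, if_neg hz1.symm]
      simp [Sg]
    · by_cases hxz : x = t.z
      · rw [hxz, hz0, if_neg hz1, if_pos rfl]
        simp [Sg]
      · rw [if_neg hx1, if_neg hxz, add_zero, sub_zero]
        exact h1 x hx1 hxz
  · intro x
    rw [← ht, hk]
    simp only
    have e1 : (t.z * x = 1) ↔ x = t.z := by
      rw [mul_eq_one_iff_inv_eq, t.zinv]
      exact eq_comm
    have e2 : (t.z * x = t.z) ↔ x = 1 := mul_eq_left
    simp only [e1, e2, hz]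
    ring
  · intro j hj0 hjg
    have hw1 : (QuaternionGroup.a j : QuaternionGroup g) ≠ 1 := by
      intro h'
      rw [QuaternionGroup.one_def] at h'
      injection h' with h'
      exact hj0 h'
    have hwz : (QuaternionGroup.a j : QuaternionGroup g) ≠ t.z := by
      intro h'
      rw [ht] at h'
      injection h' with h'
      exact hjg h'
    obtain ⟨w, hw⟩ : ∃ w, w = (QuaternionGroup.a j : QuaternionGroup g) := ⟨_, rfl⟩
    rw [← hw] at hw1 hwz ⊢
    have a1 : ∀ x : QuaternionGroup g, (x * w = 1) ↔ x = w⁻¹ := fun x => mul_eq_one_iff_eq_inv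
    have a2 : ∀ x : QuaternionGroup g, (x * w = t.z) ↔ x = t.z * w⁻¹ :=
      fun x => by rw [← eq_mul_inv_iff_mul_eq]
    have b1 : ∀ x : QuaternionGroup g, k x * k (x * w) = h x * h (x * w) +
        (if x = 1 then h w else 0) - (if x = t.z then h (t.z * w) else 0) +
        (if x = w⁻¹ then h w⁻¹ else 0) - (if x = t.z * w⁻¹ then h (t.z * w⁻¹) else 0) := by
      intro x
      rw [hk]
      simp only [a1, a2]
      by_cases c1 : x = 1
      · subst c1
        have d1 : ¬ (1 : QuaternionGroup g) = t.z := hz1.symm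
        have d2 : ¬ (1 : QuaternionGroup g) = w⁻¹ := fun h' => hw1 (inv_eq_one.1 h'.symm)
        have d3 : ¬ (1 : QuaternionGroup g) = t.z * w⁻¹ := fun h' => hwz (by
          rw [eq_mul_inv_iff_mul_eq, one_mul] at h'; exact h')
        simp [d1, d2, d3, h0]
      · by_cases c2 : x = t.z
        · subst c2
          have d2 : ¬ t.z = w⁻¹ := fun h' => hwz (by
            rw [← inv_inv w, ← h', t.zinv])
          have d3 : ¬ t.z = t.z * w⁻¹ := fun h' => hw1 (by
            rw [left_eq_mul, inv_eq_one] at h'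
            exact h')
          simp [c1, d2, d3, hz0]
        · by_cases c3 : x = w⁻¹
          · subst c3
            have d3 : ¬ w⁻¹ = t.z * w⁻¹ := fun h' => hz1 (by
              rw [right_eq_mul] at h'
              exact h')
            have d4 : ¬ w⁻¹ = 1 := c1
            simp only [c1, c2, d3, if_true, if_false, inv_mul_cancel, h0]
            ring
          · by_cases c4 : x = t.z * w⁻¹
            · subst c4
              simp only [c1, c2, c3, if_true, if_false, inv_mul_cancel_right, hz0]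
              ring
            · simp [c1, c2, c3, c4]
    rw [sum_congr rfl fun x _ => b1 x]
    simp only [sum_add_distrib, sum_sub_distrib, sum_ite_eq', mem_univ, if_true,
      hcor w hw1 hwz, hz, hinv]
    ring

end field

/-- Paley type negaperiodic Golay pairs -/
theorem NegaGolay.paley {q : ℕ} (hq : IsPrimePow q) (h4 : q % 4 = 3) :
    NegaGolay ((q + 1) / 2) := by
  obtain ⟨p, k, hp, hk, rfl⟩ := hq
  have hp' : Nat.Prime p := hp.nat_prime
  have : Fact p.Prime := ⟨hp'⟩
  have : Fintype (GaloisField p k) := Fintype.ofFinite _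
  have hcard : Fintype.card (GaloisField p k) = p ^ k := by
    rw [← Nat.card_eq_fintype_card]
    exact GaloisField.card p k hk.ne'
  classical
  exact negaGolay_of_field (F := GaloisField p k) (by rw [hcard]; exact h4)
    (by rw [hcard]; omega)

/-- the main theorem -/
theorem main_golay : ∃ C : ℕ, ∀ n q t g : ℕ, IsPrimePow q → q ≤ tow n → 2 ^ C ^ (n + 1) ≤ t →
    NegaGolay g → 2 ^ t * (2 * g) ∣ q + 1 + 4 * g → HasHad (4 * (q + 1 + 2 * g)) := by
  obtain ⟨C, hC, h⟩ := Pool.Agent.Y342.SK.main_skew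
  refine ⟨C, fun n q t g hq hqn ht hG hd => ?_⟩
  have ht1 : 1 ≤ t := le_trans Nat.one_le_two_pow ht
  obtain ⟨m, hm⟩ := hd
  have hg := hG.1
  obtain ⟨w, hw⟩ : ∃ w, w = 2 ^ t * m := ⟨_, rfl⟩
  have hqw : q + 1 + 4 * g = 2 * g * w := by rw [hm, hw]; ring
  have h2t : 2 ∣ 2 ^ t := dvd_pow_self 2 (by omega)
  have h2w : 2 ∣ w := by rw [hw]; exact h2t.mul_right m
  have hw2 : 3 ≤ w := by
    have h1 := hq.one_lt
    by_contra hlt
    have h3 : 2 * g * w ≤ 2 * g * 2 := Nat.mul_le_mul_left _ (by omega)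
    omega
  obtain ⟨s, rfl⟩ : ∃ s, w = s + 1 + 1 := ⟨w - 2, by omega⟩
  have hs : 2 * g * s = q + 1 := by
    have h1 : 2 * g * (s + 1 + 1) = 2 * g * s + 4 * g := by ring
    omega
  have hs0 : 0 < s := by omega
  have hsq : s + 1 ≤ q := by
    obtain ⟨r, rfl⟩ : ∃ r, s = 2 * r := ⟨s / 2, by omega⟩
    have h1 : 2 * (2 * r) ≤ 2 * g * (2 * r) := Nat.mul_le_mul_right _ (by omega)
    omega
  have hv : 2 ^ t ∣ (s + 1) + 1 := ⟨m, hw⟩
  obtain ⟨S, hS⟩ := Pool.Agent.Y342.SK.core_of h (le_trans hsq hqn) ht hv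
  have hq4 : q % 4 = 3 := by
    obtain ⟨r, rfl⟩ : ∃ r, s = 2 * r := ⟨s / 2, by omega⟩
    have h1 : q + 1 = 4 * (g * r) := by rw [← hs]; ring
    omega
  obtain ⟨p, k, hp, hk, rfl⟩ := hq
  have hp' : Nat.Prime p := hp.nat_prime
  have : Fact p.Prime := ⟨hp'⟩
  have : Fintype (GaloisField p k) := Fintype.ofFinite _
  have hcard : Fintype.card (GaloisField p k) = p ^ k := by
    rw [← Nat.card_eq_fintype_card]
    exact GaloisField.card p k hk.ne'
  classical
  have h9 := had_of_field (F := GaloisField p k) (by rw [hcard]; exact hq4) hG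
    (by rw [hcard]; exact hs) hS
  have h10 : 4 * (p ^ k + 1 + 2 * g) = 8 * g * (s + 1) := by
    rw [← hs]; ring
  rw [h10]
  exact h9

end Pool.Agent.H34PG
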