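import Pool.Agent.H34PG.Trans
import Mathlib.GroupTheory.SpecificGroups.Quaternion

/-!
# Negaperiodic Golay pairs and the dicyclic group
-/

set_option autoImplicit false
set_option linter.unusedSectionVars false

namespace Pool.Agent.H34PG

open Finset
open Pool.Agent.Y342.SK (Sg)

/-- There is a negaperiodic Golay pair of length `g`. -/
def NegaGolay (g : ℕ) : Prop :=
  0 < g ∧ ∃ x y : ℕ → ℤ, (∀ i, x i = 1 ∨ x i = -1) ∧ (∀ i, y i = 1 ∨ y i = -1) ∧
    (∀ i, x (i + g) = - x i) ∧ (∀ i, y (i + g) = - y i) ∧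
    ∀ w, 0 < w → w < g → ∑ i ∈ range g, (x i * x (i + w) + y i * y (i + w)) = 0

theorem NegaGolay.one : NegaGolay 1 := by
  refine ⟨one_pos, fun i => if i % 2 = 0 then 1 else -1, fun i => if i % 2 = 0 then 1 else -1,
    fun i => ?_, fun i => ?_, fun i => ?_, fun i => ?_, fun w h1 h2 => ?_⟩
  · by_cases h : i % 2 = 0 <;> simp [h]
  · by_cases h : i % 2 = 0 <;> simp [h]
  · by_cases h : i % 2 = 0
    · have h' : ¬ (i + 1) % 2 = 0 := by omega
      simp [h, h']
    · have h' : (i + 1) % 2 = 0 := by omega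
      simp [h, h']
  · by_cases h : i % 2 = 0
    · have h' : ¬ (i + 1) % 2 = 0 := by omega
      simp [h, h']
    · have h' : (i + 1) % 2 = 0 := by omega
      simp [h, h']
  · omega

theorem sum_range_two_mul (f : ℕ → ℤ) (g : ℕ) :
    ∑ n ∈ range (2 * g), f n = ∑ i ∈ range g, (f (2 * i) + f (2 * i + 1)) := by
  induction g with
  | zero => simp
  | succ g ih =>
    rw [sum_range_succ, ← ih, mul_add, mul_one, sum_range_succ, sum_range_succ]
    ring

theorem sum_range_two (f : ℕ → ℤ) (g : ℕ) :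
    ∑ n ∈ range (2 * g), f n = ∑ i ∈ range g, f i + ∑ i ∈ range g, f (g + i) := by
  rw [two_mul, sum_range_add]

/-- interleaving -/
theorem NegaGolay.two_mul {g : ℕ} (h : NegaGolay g) : NegaGolay (2 * g) := by
  obtain ⟨hg, x, y, x1, y1, xn, yn, hw⟩ := h
  refine ⟨by omega, fun n => if n % 2 = 0 then x (n / 2) else y (n / 2),
    fun n => if n % 2 = 0 then x (n / 2) else - y (n / 2),
    fun i => ?_, fun i => ?_, fun i => ?_, fun i => ?_, fun w h1 h2 => ?_⟩
  · simp only
    split_ifs
    · exact x1 _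
    · exact y1 _
  · simp only
    split_ifs
    · exact x1 _
    · rcases y1 (i / 2) with h | h <;> rw [h] <;> simp
  · have e1 : (i + 2 * g) % 2 = i % 2 := by omega
    have e2 : (i + 2 * g) / 2 = i / 2 + g := by omega
    simp only [e1, e2, xn, yn]
    split_ifs <;> rfl
  · have e1 : (i + 2 * g) % 2 = i % 2 := by omega
    have e2 : (i + 2 * g) / 2 = i / 2 + g := by omega
    simp only [e1, e2, xn, yn]
    split_ifs <;> rfl
  · rw [sum_range_two_mul]
    rcases Nat.even_or_odd' w with ⟨v, hv | hv⟩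
    · have hs : ∀ i, ((if 2 * i % 2 = 0 then x (2 * i / 2) else y (2 * i / 2)) *
          (if (2 * i + w) % 2 = 0 then x ((2 * i + w) / 2) else y ((2 * i + w) / 2)) +
          (if 2 * i % 2 = 0 then x (2 * i / 2) else -y (2 * i / 2)) *
          (if (2 * i + w) % 2 = 0 then x ((2 * i + w) / 2) else -y ((2 * i + w) / 2)) +
          ((if (2 * i + 1) % 2 = 0 then x ((2 * i + 1) / 2) else y ((2 * i + 1) / 2)) *
          (if (2 * i + 1 + w) % 2 = 0 then x ((2 * i + 1 + w) / 2) else
            y ((2 * i + 1 + w) / 2)) +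
          (if (2 * i + 1) % 2 = 0 then x ((2 * i + 1) / 2) else -y ((2 * i + 1) / 2)) *
          (if (2 * i + 1 + w) % 2 = 0 then x ((2 * i + 1 + w) / 2) else
            -y ((2 * i + 1 + w) / 2)))) = 2 * (x i * x (i + v) + y i * y (i + v)) := by
        intro i
        have a1 : 2 * i % 2 = 0 := by omega
        have a2 : (2 * i + w) % 2 = 0 := by omega
        have a3 : ¬ (2 * i + 1) % 2 = 0 := by omega
        have a4 : ¬ (2 * i + 1 + w) % 2 = 0 := by omega
        have b1 : 2 * i / 2 = i := by omega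
        have b2 : (2 * i + w) / 2 = i + v := by omega
        have b3 : (2 * i + 1) / 2 = i := by omega
        have b4 : (2 * i + 1 + w) / 2 = i + v := by omega
        simp only [a1, a2, a3, a4, b1, b2, b3, b4, if_true, if_false]
        ring
      rw [sum_congr rfl fun i _ => hs i, ← mul_sum, hw v (by omega) (by omega), mul_zero]
    · apply sum_eq_zero
      intro i _
      have a1 : 2 * i % 2 = 0 := by omega
      have a2 : ¬ (2 * i + w) % 2 = 0 := by omega
      have a3 : ¬ (2 * i + 1) % 2 = 0 := by omega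
      have a4 : (2 * i + 1 + w) % 2 = 0 := by omega
      simp only [a1, a2, a3, a4, if_true, if_false]
      ring

theorem NegaGolay.pow_mul {g : ℕ} (h : NegaGolay g) (i : ℕ) : NegaGolay (2 ^ i * g) := by
  induction i with
  | zero => simpa using h
  | succ i ih =>
    have := ih.two_mul
    rwa [← mul_assoc, ← pow_succ'] at this

section quat

variable {g : ℕ} [NeZero g]

open QuaternionGroup

omit [NeZero g] in
theorem g_add_g : (g : ZMod (2 * g)) + g = 0 := by
  have : (2 * g : ZMod (2 * g)) = 0 := by norm_cast; simp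
  linear_combination this

omit [NeZero g] in
theorem neg_g : -(g : ZMod (2 * g)) = g := by
  rw [neg_eq_iff_add_eq_zero]
  exact g_add_g

theorem g_ne_zero : (g : ZMod (2 * g)) ≠ 0 := by
  intro h
  rw [ZMod.natCast_eq_zero_iff] at h
  have h1 := Nat.le_of_dvd (NeZero.pos g) h
  have h2 := NeZero.pos g
  omega

/-- the equivalence of the group and two copies of the cyclic group -/
def qEquiv : ZMod (2 * g) ⊕ ZMod (2 * g) ≃ QuaternionGroup g where
  toFun i :=
    match i with
    | Sum.inl j => a j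
    | Sum.inr j => xa j
  invFun i :=
    match i with
    | a j => Sum.inl j
    | xa j => Sum.inr j
  left_inv := by rintro (x | x) <;> rfl
  right_inv := by rintro (x | x) <;> rfl

theorem sum_quat (ψ : QuaternionGroup g → ℤ) :
    ∑ x, ψ x = ∑ i : ZMod (2 * g), ψ (a i) + ∑ i : ZMod (2 * g), ψ (xa i) := by
  rw [← Equiv.sum_comp qEquiv, Fintype.sum_sum_type]
  rfl

theorem sum_zmod (N : ℕ) [NeZero N] (ψ : ZMod N → ℤ) :
    ∑ i : ZMod N, ψ i = ∑ i ∈ range N, ψ (i : ZMod N) := by
  rw [Finset.sum_range]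
  have h := Equiv.sum_comp (ZMod.finEquiv N).toEquiv ψ
  rw [← h]
  refine sum_congr rfl fun i _ => ?_
  congr 1
  obtain ⟨m, rfl⟩ : ∃ m, N = m + 1 := ⟨N - 1, by have := NeZero.pos N; omega⟩
  simp [ZMod.finEquiv]
  exact (Fin.cast_val_eq_self i).symm

/-- the central involution of the dicyclic group with a transversal -/
theorem exists_tr : ∃ t : Tr (QuaternionGroup g), t.z = a (g : ZMod (2 * g)) := by
  have hzz : a (g : ZMod (2 * g)) * a (g : ZMod (2 * g)) = 1 := by
    rw [a_mul_a, g_add_g, a_zero]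
  obtain ⟨T, h1, h2⟩ := exists_transversal (fun x : QuaternionGroup g => a (g : ZMod (2 * g)) * x)
    (fun x => by rw [← mul_assoc, hzz, one_mul]) (fun x h => by
      have h3 : a (g : ZMod (2 * g)) = (1 : QuaternionGroup g) := by
        simpa using h
      rw [one_def] at h3
      injection h3 with h4
      exact g_ne_zero h4)
  exact ⟨{ z := a (g : ZMod (2 * g))
           zz := hzz
           zc := by
            rintro (i | i)
            · rw [a_mul_a, a_mul_a, add_comm]
            · rw [a_mul_xa, xa_mul_a, sub_eq_add_neg, neg_g]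
           T := T
           T1 := h1
           T2 := h2 }, rfl⟩

omit [NeZero g] in
theorem periodic2 {x : ℕ → ℤ} (hx : ∀ i, x (i + g) = - x i) : Function.Periodic x (2 * g) := by
  intro i
  have h : i + 2 * g = i + g + g := by ring
  rw [h, hx, hx, neg_neg]

theorem val_add_eq {x : ℕ → ℤ} (hx : ∀ i, x (i + g) = - x i) (i j : ZMod (2 * g)) :
    x (i + j).val = x (i.val + j.val) := by
  rw [ZMod.val_add, (periodic2 hx).map_mod_nat]

theorem val_g : (g : ZMod (2 * g)).val = g := by
  rw [ZMod.val_natCast, Nat.mod_eq_of_lt]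
  have := NeZero.pos g
  omega

theorem val_add_g {x : ℕ → ℤ} (hx : ∀ i, x (i + g) = - x i) (i : ZMod (2 * g)) :
    x (i + (g : ZMod (2 * g))).val = - x i.val := by
  rw [val_add_eq hx, val_g, hx]

theorem corr {x y : ℕ → ℤ} (hx : ∀ i, x (i + g) = - x i) (hy : ∀ i, y (i + g) = - y i)
    (hw : ∀ w, 0 < w → w < g → ∑ i ∈ range g, (x i * x (i + w) + y i * y (i + w)) = 0)
    {w : ZMod (2 * g)} (h0 : w ≠ 0) (h1 : w ≠ g) :
    ∑ i : ZMod (2 * g), x i.val * x (i + w).val + ∑ i : ZMod (2 * g), y i.val * y (i + w).val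
      = 0 := by
  rw [← sum_add_distrib, sum_zmod]
  have e1 : ∀ n : ℕ, x (n : ZMod (2 * g)).val * x ((n : ZMod (2 * g)) + w).val +
      y (n : ZMod (2 * g)).val * y ((n : ZMod (2 * g)) + w).val =
      x n * x (n + w.val) + y n * y (n + w.val) := by
    intro n
    rw [ZMod.val_add, ZMod.val_natCast, (periodic2 hx).map_mod_nat, (periodic2 hx).map_mod_nat,
      (periodic2 hy).map_mod_nat, (periodic2 hy).map_mod_nat]
    have e2 : ∀ {z : ℕ → ℤ}, (∀ i, z (i + g) = - z i) → z (n % (2 * g) + w.val) = z (n + w.val) := by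
      intro z hz
      rw [← (periodic2 hz).map_mod_nat, ← (periodic2 hz).map_mod_nat (n + w.val), Nat.mod_add_mod]
    rw [e2 hx, e2 hy]
  rw [sum_congr rfl fun n _ => e1 n]
  have hv0 : w.val ≠ 0 := by rwa [Ne, ZMod.val_eq_zero]
  have hvg : w.val ≠ g := by
    intro h
    apply h1
    rw [← ZMod.natCast_zmod_val w, h]
  have hvl : w.val < 2 * g := ZMod.val_lt w
  have e3 : ∑ n ∈ range (2 * g), (x n * x (n + w.val) + y n * y (n + w.val)) =
      2 * ∑ n ∈ range g, (x n * x (n + w.val) + y n * y (n + w.val)) := by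
    rw [sum_range_two]
    have e4 : ∀ n, x (g + n) * x (g + n + w.val) + y (g + n) * y (g + n + w.val) =
        x n * x (n + w.val) + y n * y (n + w.val) := by
      intro n
      have e5 : g + n + w.val = n + w.val + g := by ring
      rw [e5, add_comm g n, hx, hx, hy, hy]
      ring
    rw [sum_congr rfl fun n _ => e4 n]
    ring
  rw [e3]
  rcases lt_or_gt_of_ne hvg with h | h
  · rw [hw _ (by omega) h, mul_zero]
  · obtain ⟨v, hv⟩ : ∃ v, w.val = v + g := ⟨w.val - g, by omega⟩
    rw [hv]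
    have e6 : ∀ n, x n * x (n + (v + g)) + y n * y (n + (v + g)) =
        -(x n * x (n + v) + y n * y (n + v)) := by
      intro n
      rw [← add_assoc, hx, hy]
      ring
    rw [sum_congr rfl fun n _ => e6 n, sum_neg_distrib, hw v (by omega) (by omega)]
    simp

theorem NegaGolay.toK (h : NegaGolay g) : ∃ k : QuaternionGroup g → ℤ, (∀ x, Sg (k x)) ∧
    (∀ x, k (a (g : ZMod (2 * g)) * x) = - k x) ∧
    (∀ w, w ≠ 1 → w ≠ a (g : ZMod (2 * g)) → ∑ x, k x * k (w * x) = 0) ∧
    (∀ w, w ≠ 1 → w ≠ a (g : ZMod (2 * g)) → ∑ x, k x * k (x * w) = 0) := by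
  obtain ⟨hg, x, y, x1, y1, xn, yn, hw⟩ := h
  have hxg := val_add_g xn
  have hyg := val_add_g yn
  have hxg' : ∀ i : ZMod (2 * g), x ((g : ZMod (2 * g)) + i).val = - x i.val := fun i => by
    rw [add_comm, hxg]
  have hyg' : ∀ i : ZMod (2 * g), y (i - (g : ZMod (2 * g))).val = - y i.val := fun i => by
    rw [sub_eq_add_neg, neg_g, hyg]
  refine ⟨fun u => match u with
    | a i => x i.val
    | xa i => y i.val, ?_, ?_, ?_, ?_⟩
  · rintro (i | i)
    · exact x1 _
    · exact y1 _
  · rintro (i | i)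
    · exact hxg' i
    · exact hyg' i
  · rintro (j | j) h1 h2
    · have hj0 : j ≠ 0 := fun h => h1 (by rw [h, a_zero])
      have hjg : j ≠ g := fun h => h2 (by rw [h])
      rw [sum_quat]
      simp only [a_mul_a, a_mul_xa]
      rw [← corr xn yn hw hj0 hjg]
      congr 1
      · exact sum_congr rfl fun i _ => by rw [add_comm j i]
      · rw [← Equiv.sum_comp (Equiv.addRight j)]
        refine sum_congr rfl fun i _ => ?_
        simp only [Equiv.coe_addRight, add_sub_cancel_right]
        ring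
    · rw [sum_quat]
      simp only [xa_mul_a, xa_mul_xa]
      rw [← Equiv.sum_comp (Equiv.addRight j) (fun i => y i.val * x ((g : ZMod (2 * g)) + i - j).val)]
      simp only [Equiv.coe_addRight]
      rw [← sum_add_distrib]
      apply sum_eq_zero
      intro i _
      have e1 : (g : ZMod (2 * g)) + (i + j) - j = g + i := by ring
      rw [e1, hxg', add_comm j i]
      ring
  · rintro (j | j) h1 h2
    · have hj0 : j ≠ 0 := fun h => h1 (by rw [h, a_zero])
      have hjg : j ≠ g := fun h => h2 (by rw [h])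
      rw [sum_quat]
      simp only [a_mul_a, xa_mul_a]
      exact corr xn yn hw hj0 hjg
    · rw [sum_quat]
      simp only [a_mul_xa, xa_mul_xa]
      rw [← Equiv.sum_comp (Equiv.subLeft j) (fun i => y i.val * x ((g : ZMod (2 * g)) + j - i).val)]
      simp only [Equiv.subLeft_apply]
      rw [← sum_add_distrib]
      apply sum_eq_zero
      intro i _
      have e1 : (g : ZMod (2 * g)) + j - (j - i) = g + i := by ring
      rw [e1, hxg']
      ring

theorem NegaGolay.ofK (k : QuaternionGroup g → ℤ) (k1 : ∀ x, Sg (k x))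
    (kz : ∀ x, k (a (g : ZMod (2 * g)) * x) = - k x)
    (kr : ∀ j : ZMod (2 * g), j ≠ 0 → j ≠ g → ∑ x, k x * k (x * a j) = 0) : NegaGolay g := by
  have hx : ∀ i : ℕ, k (a ((i + g : ℕ) : ZMod (2 * g))) = - k (a (i : ZMod (2 * g))) := by
    intro i
    rw [← kz, a_mul_a]
    congr 2
    push_cast
    ring
  have hy : ∀ i : ℕ, k (xa ((i + g : ℕ) : ZMod (2 * g))) = - k (xa (i : ZMod (2 * g))) := by
    intro i
    rw [← kz, a_mul_xa]
    congr 2
    push_cast
    rw [sub_eq_add_neg, neg_g]
  refine ⟨NeZero.pos g, fun i => k (a i), fun i => k (xa i), fun i => k1 _, fun i => k1 _,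
    hx, hy, fun w h0 h1 => ?_⟩
  have e1 := kr (w : ZMod (2 * g)) (fun h => by
      rw [ZMod.natCast_eq_zero_iff] at h
      have := Nat.le_of_dvd h0 h
      omega) (fun h => by
      have h2 := congrArg ZMod.val h
      rw [val_g, ZMod.val_natCast, Nat.mod_eq_of_lt (by omega)] at h2
      omega)
  rw [sum_quat] at e1
  simp only [a_mul_a, xa_mul_a] at e1
  rw [← sum_add_distrib, sum_zmod, sum_range_two] at e1
  have e2 : ∀ i : ℕ, k (a ((g + i : ℕ) : ZMod (2 * g))) *
        k (a (((g + i : ℕ) : ZMod (2 * g)) + (w : ZMod (2 * g)))) +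
      k (xa ((g + i : ℕ) : ZMod (2 * g))) *
        k (xa (((g + i : ℕ) : ZMod (2 * g)) + (w : ZMod (2 * g)))) =
      k (a ((i : ℕ) : ZMod (2 * g))) * k (a (((i : ℕ) : ZMod (2 * g)) + (w : ZMod (2 * g)))) +
      k (xa ((i : ℕ) : ZMod (2 * g))) *
        k (xa (((i : ℕ) : ZMod (2 * g)) + (w : ZMod (2 * g)))) := by
    intro i
    have e3 : ((g + i : ℕ) : ZMod (2 * g)) + (w : ZMod (2 * g)) =
        ((i + w + g : ℕ) : ZMod (2 * g)) := by push_cast; ring
    have e4 : ((g + i : ℕ) : ZMod (2 * g)) = ((i + g : ℕ) : ZMod (2 * g)) := by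
      rw [Nat.add_comm]
    have e5 : (i : ZMod (2 * g)) + (w : ZMod (2 * g)) = ((i + w : ℕ) : ZMod (2 * g)) := by
      push_cast; ring
    rw [e3, e4, e5, hx, hx, hy, hy]
    ring
  rw [sum_congr rfl fun i _ => e2 i] at e1
  have e6 : ∀ i : ℕ, k (a (i : ZMod (2 * g))) * k (a ((i + w : ℕ) : ZMod (2 * g))) +
      k (xa (i : ZMod (2 * g))) * k (xa ((i + w : ℕ) : ZMod (2 * g))) =
      k (a ((i : ℕ) : ZMod (2 * g))) * k (a (((i : ℕ) : ZMod (2 * g)) + (w : ZMod (2 * g)))) +
      k (xa ((i : ℕ) : ZMod (2 * g))) *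
        k (xa (((i : ℕ) : ZMod (2 * g)) + (w : ZMod (2 * g)))) := by
    intro i
    have e5 : (i : ZMod (2 * g)) + (w : ZMod (2 * g)) = ((i + w : ℕ) : ZMod (2 * g)) := by
      push_cast; ring
    rw [e5]
  rw [sum_congr rfl fun i _ => e6 i]
  linarith

end quat

end Pool.Agent.H34PG
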