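import Pool.Agent.H34PG.Sympl
import Pool.Agent.H34PG.Quat
import Mathlib.Algebra.QuadraticAlgebra.Basic

/-!
# The dicyclic group acting on the plane over a finite field
-/

set_option autoImplicit false
set_option linter.unusedSectionVars false

namespace Pool.Agent.H34PG

open Finset
open Pool.Agent.Y342.SK (Sg)
open Pool.Agent.R110.Had (neg_one_nsq)

section field

variable {F : Type} [Field F] [Fintype F] [DecidableEq F]

/-- the quadratic extension -/
abbrev Lf (F : Type) [Field F] : Type := QuadraticAlgebra F (-1) 0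

theorem fact_nsq (h4 : Fintype.card F % 4 = 3) : Fact (∀ r : F, r ^ 2 ≠ -1 + 0 * r) := by
  refine ⟨fun r hr => neg_one_nsq h4 ⟨r, ?_⟩⟩
  linear_combination -hr

theorem norm_eq (z : Lf F) : QuadraticAlgebra.norm z = z.re * z.re + z.im * z.im := by
  rw [QuadraticAlgebra.norm_def]; ring

/-- there is an element of norm one and given order -/
theorem exists_omega (h4 : Fintype.card F % 4 = 3) {g : ℕ} (hg : 0 < g)
    (hd : 2 * g ∣ Fintype.card F + 1) :
    ∃ w : Lf F, w.re * w.re + w.im * w.im = 1 ∧ w ^ (2 * g) = 1 ∧ w ^ g = -1 ∧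
      ∀ n : ℕ, (w ^ n).im = 0 → g ∣ n := by
  have := fact_nsq h4
  have hfin : Finite (Lf F) := Finite.of_equiv _ (QuadraticAlgebra.equivProd (-1 : F) 0).symm
  have : Fintype (Lf F) := Fintype.ofFinite _
  have hcard : Fintype.card (Lf F) = Fintype.card F * Fintype.card F := by
    rw [Fintype.card_congr (QuadraticAlgebra.equivProd (-1 : F) 0), Fintype.card_prod]
  obtain ⟨γ, hγ⟩ := IsCyclic.exists_generator (α := (Lf F)ˣ)
  have hord : orderOf γ = Fintype.card F * Fintype.card F - 1 := by
    rw [orderOf_eq_card_of_forall_mem_zpowers hγ, Nat.card_eq_fintype_card, Fintype.card_units,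
      hcard]
  have hq : 2 < Fintype.card F := by
    have := Fintype.one_lt_card (α := F)
    omega
  obtain ⟨s, hs⟩ := hd
  obtain ⟨q, hq'⟩ : ∃ q, q + 1 = Fintype.card F := ⟨Fintype.card F - 1, by omega⟩
  have hs0 : 0 < s := by
    rcases Nat.eq_zero_or_pos s with h | h
    · rw [h, mul_zero] at hs; omega
    · exact h
  have hord' : orderOf γ = (2 * g) * (s * q) := by
    rw [hord, ← hq']
    have h1 : (q + 1) * (q + 1) = (q + 1 + 1) * q + 1 := by ring
    rw [h1, Nat.add_sub_cancel, hq', hs]
    ring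
  have hsq : 0 < s * q := Nat.mul_pos hs0 (by omega)
  have hw : orderOf (γ ^ (s * q)) = 2 * g := by
    rw [orderOf_pow' _ hsq.ne', hord', Nat.gcd_eq_right (dvd_mul_left _ _),
      Nat.mul_div_cancel _ hsq]
  have hN : ∀ u : (Lf F)ˣ, QuadraticAlgebra.norm ((u : Lf F) ^ q) = 1 := by
    intro u
    rw [map_pow]
    have h1 : QuadraticAlgebra.norm (u : Lf F) ≠ 0 := by
      rw [Ne, QuadraticAlgebra.norm_eq_zero_iff_eq_zero]
      exact u.ne_zero
    have h2 := FiniteField.pow_card_sub_one_eq_one _ h1
    rwa [← hq', Nat.add_sub_cancel] at h2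
  have hw1 : ((γ : Lf F) ^ (s * q)) ^ (2 * g) = 1 := by
    have h1 := pow_orderOf_eq_one (γ ^ (s * q))
    rw [hw] at h1
    have h2 := congrArg (fun u : (Lf F)ˣ => (u : Lf F)) h1
    simpa using h2
  have hNw : QuadraticAlgebra.norm ((γ : Lf F) ^ (s * q)) = 1 := by
    have h1 := hN (γ ^ s)
    rw [Units.val_pow_eq_pow_val, ← pow_mul] at h1
    exact h1
  have hpm : ∀ x : Lf F, x * x = 1 → x = 1 ∨ x = -1 := fun x hx => mul_self_eq_one_iff.1 hx
  refine ⟨(γ : Lf F) ^ (s * q), ?_, hw1, ?_, ?_⟩
  · rw [← norm_eq]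
    exact hNw
  · have h1 := hpm (((γ : Lf F) ^ (s * q)) ^ g) (by rw [← pow_add, ← two_mul]; exact hw1)
    refine h1.resolve_left fun h2 => ?_
    have h3 : (γ ^ (s * q)) ^ g = 1 := by
      ext1
      simpa using h2
    have h4 := orderOf_dvd_of_pow_eq_one h3
    rw [hw] at h4
    have h5 := Nat.le_of_dvd hg h4
    omega
  · intro n hn
    have h1 : QuadraticAlgebra.norm (((γ : Lf F) ^ (s * q)) ^ n) = 1 := by
      rw [map_pow, hNw, one_pow]
    rw [norm_eq, hn, mul_zero, add_zero] at h1
    have h2 : (((γ : Lf F) ^ (s * q)) ^ n) * (((γ : Lf F) ^ (s * q)) ^ n) = 1 := by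
      ext
      · rw [QuadraticAlgebra.re_mul, hn, h1]; simp; rfl
      · rw [QuadraticAlgebra.im_mul, hn]; simp; rfl
    have h3 : (γ ^ (s * q)) ^ (n + n) = 1 := by
      ext1
      rw [pow_add]
      simpa using h2
    have h4 := orderOf_dvd_of_pow_eq_one h3
    rw [hw, ← two_mul] at h4
    exact Nat.dvd_of_mul_dvd_mul_left two_pos h4

/-- there is an element of norm minus one -/
theorem exists_rho : ∃ r s : F, r * r + s * s = -1 := by
  obtain ⟨p, hp⟩ := CharP.exists F
  have hp' : p.Prime := CharP.char_is_prime F p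
  have : NeZero p := ⟨hp'.ne_zero⟩
  obtain ⟨a, b, h⟩ := CharP.sq_add_sq F p (-1)
  refine ⟨a, b, ?_⟩
  push_cast at h
  linear_combination h

/-- pairs as elements of the quadratic extension -/
def toL (u : F × F) : Lf F := ⟨u.1, u.2⟩

/-- elements of the quadratic extension as pairs -/
def ofL (z : Lf F) : F × F := (z.re, z.im)

theorem toL_ofL (z : Lf F) : toL (ofL z) = z := rfl

theorem ofL_toL (u : F × F) : ofL (toL u) = u := rfl

theorem toL_inj {u v : F × F} (h : toL u = toL v) : u = v := by
  rw [← ofL_toL u, h, ofL_toL]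

theorem toL_smul (c : F) (u : F × F) : toL (c • u) = c • toL u := rfl

theorem toL_neg (u : F × F) : toL (-u) = - toL u := rfl

theorem ofL_smul (c : F) (z : Lf F) : ofL (c • z) = c • ofL z := rfl

theorem ph_ofL_mul (z : Lf F) (u v : F × F) : ph (ofL (z * toL u)) (ofL (z * toL v)) =
    (z.re * z.re + z.im * z.im) * ph u v := by
  simp only [ph, ofL, toL, QuadraticAlgebra.re_mul, QuadraticAlgebra.im_mul]
  ring

theorem ph_ofL_star (z w : Lf F) : ph (ofL (star z)) (ofL (star w)) = - ph (ofL z) (ofL w) := by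
  simp only [ph, ofL, QuadraticAlgebra.re_star, QuadraticAlgebra.im_star]
  ring

theorem star_mul_self (z : Lf F) (hz : z.re * z.re + z.im * z.im = 1) : star z * z = 1 := by
  ext
  · rw [QuadraticAlgebra.re_mul, QuadraticAlgebra.re_star, QuadraticAlgebra.im_star]
    have h : (1 : Lf F).re = 1 := rfl
    rw [h]
    linear_combination hz
  · rw [QuadraticAlgebra.im_mul, QuadraticAlgebra.re_star, QuadraticAlgebra.im_star]
    have h : (1 : Lf F).im = 0 := rfl
    rw [h]
    ring

open QuaternionGroup in
/-- the action of the dicyclic group -/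
theorem exists_act (h4 : Fintype.card F % 4 = 3) {g : ℕ} [NeZero g]
    (hd : 2 * g ∣ Fintype.card F + 1) (t : Tr (QuaternionGroup g))
    (htz : t.z = a (g : ZMod (2 * g))) : Nonempty (Act F t) := by
  have hFact := fact_nsq h4
  obtain ⟨w, hw1, hw2, hw3, hw4⟩ := exists_omega h4 (NeZero.pos g) hd
  obtain ⟨r, s, hrs⟩ := exists_rho (F := F)
  -- powers of `w`
  have hnw : ∀ n : ℕ, (w ^ n).re * (w ^ n).re + (w ^ n).im * (w ^ n).im = 1 := by
    intro n
    rw [← norm_eq, map_pow, norm_eq, hw1, one_pow]
  have hmod : ∀ n : ℕ, w ^ (n % (2 * g)) = w ^ n := by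
    intro n
    conv_rhs => rw [← Nat.mod_add_div n (2 * g), pow_add, pow_mul, hw2, one_pow, mul_one]
  let W : ZMod (2 * g) → Lf F := fun i => w ^ i.val
  have hWadd : ∀ i j, W (i + j) = W i * W j := by
    intro i j
    simp only [W]
    rw [ZMod.val_add, hmod, pow_add]
  have hWn : ∀ i, (W i).re * (W i).re + (W i).im * (W i).im = 1 := fun i => hnw _
  have hWs : ∀ i, star (W i) * W i = 1 := fun i => star_mul_self _ (hWn i)
  have hW0 : W 0 = 1 := by simp [W]
  have hWneg : ∀ i, W (-i) = star (W i) := by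
    intro i
    have h1 : W (-i) * W i = 1 := by rw [← hWadd, neg_add_cancel, hW0]
    calc W (-i) = (star (W i) * W i) * W (-i) := by rw [hWs, one_mul]
      _ = star (W i) * (W (-i) * W i) := by ring
      _ = star (W i) := by rw [h1, mul_one]
  have hWsub : ∀ i j, W (i - j) = W i * star (W j) := by
    intro i j
    rw [sub_eq_add_neg, hWadd, hWneg]
  have hWg : W g = -1 := by
    simp only [W]
    rw [val_g, hw3]
  obtain ⟨ρ, hρ⟩ : ∃ ρ : Lf F, ρ = ⟨r, s⟩ := ⟨_, rfl⟩
  have hρn : ρ.re * ρ.re + ρ.im * ρ.im = -1 := by rw [hρ]; exact hrs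
  have hρs : star ρ * ρ = -1 := by
    ext
    · rw [QuadraticAlgebra.re_mul, QuadraticAlgebra.re_star, QuadraticAlgebra.im_star]
      have h : (-1 : Lf F).re = -1 := rfl
      rw [h]
      linear_combination hρn
    · rw [QuadraticAlgebra.im_mul, QuadraticAlgebra.re_star, QuadraticAlgebra.im_star]
      have h : (-1 : Lf F).im = 0 := by
        rw [QuadraticAlgebra.im_neg]
        show -(0 : F) = 0
        ring
      rw [h]
      ring
  let act : QuaternionGroup g → F × F → F × F := fun x u => match x with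
    | a i => ofL (W i * toL u)
    | xa i => ofL (ρ * star (W i * toL u))
  have act_a : ∀ i u, act (a i) u = ofL (W i * toL u) := fun _ _ => rfl
  have act_xa : ∀ i u, act (xa i) u = ofL (ρ * star (W i * toL u)) := fun _ _ => rfl
  refine ⟨{ act := act, a1 := ?_, am := ?_, as := ?_, ap := ?_, az := ?_, af := ?_ }⟩
  · intro u
    rw [one_def, act_a, hW0, one_mul, ofL_toL]
  · rintro (i | i) (j | j) u
    · rw [a_mul_a, act_a, act_a, act_a, toL_ofL, hWadd, mul_assoc]
    · rw [a_mul_xa, act_xa, act_xa, act_a, toL_ofL, hWsub]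
      congr 1
      simp only [star_mul', star_star]
      ring
    · rw [xa_mul_a, act_xa, act_xa, act_a, toL_ofL, hWadd]
      congr 2
      simp only [star_mul']
      ring
    · rw [xa_mul_xa, act_xa, act_xa, act_a, toL_ofL, hWsub, hWadd, hWg]
      congr 1
      simp only [star_mul', star_star]
      linear_combination (-(star (W i) * W j * toL u)) * hρs
  · rintro (i | i) c u
    · rw [act_a, act_a, toL_smul, mul_smul_comm, ofL_smul]
    · rw [act_xa, act_xa, toL_smul, mul_smul_comm, ← ofL_smul]
      congr 1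
      ext
      · simp only [QuadraticAlgebra.re_mul, QuadraticAlgebra.im_mul, QuadraticAlgebra.re_star,
          QuadraticAlgebra.im_star, QuadraticAlgebra.re_smul, QuadraticAlgebra.im_smul,
          smul_eq_mul]
        ring
      · simp only [QuadraticAlgebra.re_mul, QuadraticAlgebra.im_mul, QuadraticAlgebra.re_star,
          QuadraticAlgebra.im_star, QuadraticAlgebra.re_smul, QuadraticAlgebra.im_smul,
          smul_eq_mul]
        ring
  · rintro (i | i) u v
    · rw [act_a, act_a, ph_ofL_mul, hWn, one_mul]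
    · rw [act_xa, act_xa]
      have h1 := ph_ofL_mul ρ (ofL (star (W i * toL u))) (ofL (star (W i * toL v)))
      rw [toL_ofL, toL_ofL] at h1
      rw [h1, hρn, ph_ofL_star, ph_ofL_mul, hWn]
      ring
  · intro u
    rw [htz, act_a, hWg, neg_one_mul, ← toL_neg, ofL_toL]
  · rintro (i | i) u c hu h
    · rw [act_a] at h
      have h1 : W i * toL u = c • toL u := by
        rw [← toL_smul, ← h, toL_ofL]
      have hu' : toL u ≠ 0 := fun h' => hu (by
        have := congrArg ofL h'
        rw [ofL_toL] at this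
        exact this)
      have h2 : (W i - QuadraticAlgebra.C c) * toL u = 0 := by
        rw [sub_mul, h1, QuadraticAlgebra.C_mul_eq_smul, sub_self]
      have h3 := (mul_eq_zero.1 h2).resolve_right hu'
      have h5 : (W i).im = 0 := by
        rw [sub_eq_zero.1 h3]
        rfl
      have h6 := hw4 _ h5
      have h7 := ZMod.val_lt i
      obtain ⟨m, hm⟩ := h6
      have hm2 : m < 2 := by
        by_contra hm2
        have : g * 2 ≤ g * m := Nat.mul_le_mul_left g (not_lt.1 hm2)
        omega
      interval_cases m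
      · left
        rw [one_def]
        congr 1
        rw [← ZMod.val_eq_zero, hm, mul_zero]
      · right
        rw [htz]
        congr 1
        rw [← ZMod.natCast_zmod_val i, hm, mul_one]
    · exfalso
      rw [act_xa] at h
      have h1 : ρ * star (W i * toL u) = c • toL u := by
        rw [← toL_smul, ← h, toL_ofL]
      have h2 := congrArg QuadraticAlgebra.norm h1
      rw [map_mul, QuadraticAlgebra.norm_star, map_mul, norm_eq ρ, norm_eq (W i), hρn, hWn,
        one_mul, ← QuadraticAlgebra.C_mul_eq_smul, map_mul] at h2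
      have hu' : toL u ≠ 0 := fun h' => hu (by
        have := congrArg ofL h'
        rw [ofL_toL] at this
        exact this)
      have h3 : QuadraticAlgebra.norm (toL u) ≠ 0 := by
        rwa [Ne, QuadraticAlgebra.norm_eq_zero_iff_eq_zero]
      have h4' := mul_right_cancel₀ h3 h2
      apply neg_one_nsq h4
      refine ⟨c, ?_⟩
      rw [h4', norm_eq]
      simp

end field

end Pool.Agent.H34PG
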