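import Pool.Agent.H34PG.Trans
import Pool.Agent.R110.Had.Fld3

/-!
# Skew Paley conference matrices with a group acting
-/

set_option autoImplicit false
set_option linter.unusedSectionVars false

namespace Pool.Agent.H34PG

open Finset
open Pool.Agent.Y342.SK (Sg)
open Pool.Agent.R110.Had (chi3_neg char_ne_two3)
open Pool.Agent.TH432.Had (chi_sq)

section plane

variable {F : Type} [Field F]

/-- the alternating form on the plane -/
def ph (u v : F × F) : F := u.1 * v.2 - u.2 * v.1

theorem ph_self (u : F × F) : ph u u = 0 := by simp only [ph]; ring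

theorem ph_swap (u v : F × F) : ph v u = - ph u v := by simp only [ph]; ring

theorem ph_smul (c : F) (u v : F × F) : ph u (c • v) = c * ph u v := by
  simp only [ph, Prod.smul_fst, Prod.smul_snd, smul_eq_mul]; ring

theorem ph_eq_zero {u v : F × F} (hu : u ≠ 0) (hv : v ≠ 0) (h : ph u v = 0) :
    ∃ c : F, c ≠ 0 ∧ v = c • u := by
  obtain ⟨a, b⟩ := u
  obtain ⟨c, d⟩ := v
  simp only [ph] at h
  by_cases ha : a = 0
  · subst ha
    have hb : b ≠ 0 := fun hb => hu (by rw [hb]; rfl)
    have hc : c = 0 := by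
      have : b * c = 0 := by linear_combination -h
      exact (mul_eq_zero.1 this).resolve_left hb
    subst hc
    have hd : d ≠ 0 := fun hd => hv (by rw [hd]; rfl)
    refine ⟨d / b, div_ne_zero hd hb, ?_⟩
    ext <;> simp
    field_simp
  · have hd : d = c / a * b := by field_simp; linear_combination h
    have hc : c ≠ 0 := by
      rintro rfl
      apply hv
      rw [hd]
      simp
    refine ⟨c / a, div_ne_zero hc ha, ?_⟩
    ext
    · simp; field_simp
    · simp [hd]

theorem ph_inj {u u' v w : F × F} (h : ph u u' ≠ 0) (h1 : ph u v = ph u w)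
    (h2 : ph u' v = ph u' w) : v = w := by
  simp only [ph] at h h1 h2
  have e1 : (u.1 * u'.2 - u.2 * u'.1) * (v.1 - w.1) = 0 := by
    linear_combination u'.1 * h1 - u.1 * h2
  have e2 : (u.1 * u'.2 - u.2 * u'.1) * (v.2 - w.2) = 0 := by
    linear_combination u'.2 * h1 - u.2 * h2
  ext
  · exact sub_eq_zero.1 ((mul_eq_zero.1 e1).resolve_left h)
  · exact sub_eq_zero.1 ((mul_eq_zero.1 e2).resolve_left h)

theorem exists_ph_ne {u : F × F} (hu : u ≠ 0) : ∃ v, ph u v ≠ 0 := by
  by_cases h : u.1 = 0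
  · have h2 : u.2 ≠ 0 := fun h2 => hu (Prod.ext h h2)
    exact ⟨(1, 0), by simpa [ph] using h2⟩
  · exact ⟨(0, 1), by simpa [ph] using h⟩

variable [Fintype F] [DecidableEq F]

theorem sum_ph2 {u u' : F × F} (h : ph u u' ≠ 0) (g : F → F → ℤ) :
    ∑ v, g (ph u v) (ph u' v) = ∑ x, ∑ y, g x y := by
  have hb : Function.Bijective (fun v : F × F => (ph u v, ph u' v)) := by
    rw [← Finite.injective_iff_bijective]
    intro v w hvw
    simp only [Prod.mk.injEq] at hvw
    exact ph_inj h hvw.1 hvw.2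
  rw [← Fintype.sum_prod_type' (f := g)]
  exact Equiv.sum_comp (Equiv.ofBijective _ hb) (fun x : F × F => g x.1 x.2)

theorem sum_chi_ph2 (h4 : Fintype.card F % 4 = 3) {u u' : F × F} (h : ph u u' ≠ 0) :
    ∑ v, quadraticChar F (ph u v) * quadraticChar F (ph u' v) = 0 := by
  rw [sum_ph2 h (fun x y => quadraticChar F x * quadraticChar F y)]
  simp only [← mul_sum, quadraticChar_sum_zero (char_ne_two3 h4), mul_zero, sum_const_zero]

theorem sum_chi_ph1 {u : F × F} (hu : u ≠ 0) :
    ∑ v, quadraticChar F (ph u v) * quadraticChar F (ph u v) =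
      (Fintype.card F : ℤ) * (Fintype.card F - 1) := by
  obtain ⟨u', h⟩ := exists_ph_ne hu
  rw [sum_ph2 h (fun x _ => quadraticChar F x * quadraticChar F x)]
  simp only [sum_const, card_univ, nsmul_eq_mul, ← mul_sum]
  congr 1
  have h2 : ∀ w : F, quadraticChar F w * quadraticChar F w = 1 - if w = 0 then 1 else 0 := by
    intro w
    by_cases hw : w = 0
    · subst hw; simp
    · rw [chi_sq hw, if_neg hw, sub_zero]
  rw [sum_congr rfl fun w _ => h2 w, sum_sub_distrib]
  simp

end plane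

section act

variable {F : Type} [Field F] {G : Type} [Group G]

/-- an action of a group on the plane, with only trivial eigenvectors -/
structure Act (F : Type) [Field F] {G : Type} [Group G] (t : Tr G) where
  act : G → F × F → F × F
  a1 : ∀ u, act 1 u = u
  am : ∀ x y u, act (x * y) u = act x (act y u)
  as : ∀ x (c : F) u, act x (c • u) = c • act x u
  ap : ∀ x u v, ph (act x u) (act x v) = ph u v
  az : ∀ u, act t.z u = - u
  af : ∀ x u (c : F), u ≠ 0 → act x u = c • u → x = 1 ∨ x = t.z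

variable {t : Tr G} (a : Act F t)

namespace Act

theorem inv_act (x : G) (u : F × F) : a.act x⁻¹ (a.act x u) = u := by
  rw [← a.am, inv_mul_cancel, a.a1]

theorem act_inv (x : G) (u : F × F) : a.act x (a.act x⁻¹ u) = u := by
  rw [← a.am, mul_inv_cancel, a.a1]

theorem act_zero (x : G) : a.act x 0 = 0 := by
  have h := a.as x 0 0
  simpa using h

theorem act_ne {x : G} {u : F × F} (hu : u ≠ 0) : a.act x u ≠ 0 := by
  intro h
  apply hu
  rw [← a.inv_act x u, h, a.act_zero]

theorem ph_act (x : G) (u v : F × F) : ph (a.act x u) v = ph u (a.act x⁻¹ v) := by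
  rw [← a.ap x⁻¹, a.inv_act]

/-- nonzero vectors -/
abbrev X (F : Type) [Field F] : Type := {u : F × F // u ≠ 0}

/-- the orbits -/
def setoid : Setoid (X F) where
  r u v := ∃ x : G, ∃ c : F, c ≠ 0 ∧ (v : F × F) = c • a.act x u
  iseqv :=
    { refl := fun u => ⟨1, 1, one_ne_zero, by rw [a.a1, one_smul]⟩
      symm := by
        rintro u v ⟨x, c, hc, h⟩
        exact ⟨x⁻¹, c⁻¹, inv_ne_zero hc, by
          rw [h, a.as, a.inv_act, smul_smul, inv_mul_cancel₀ hc, one_smul]⟩
      trans := by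
        rintro u v w ⟨x, c, hc, h⟩ ⟨y, d, hd, h'⟩
        exact ⟨y * x, d * c, mul_ne_zero hd hc, by
          rw [h', h, a.as, a.am, smul_smul]⟩ }

/-- the set of orbits -/
abbrev S : Type := Quotient a.setoid

/-- representative -/
noncomputable def rep (m : a.S) : F × F := (Quotient.out m).1

theorem rep_ne (m : a.S) : a.rep m ≠ 0 := (Quotient.out m).2

theorem rep_eq {m m' : a.S} {x : G} {c : F} (hc : c ≠ 0) (h : a.rep m' = c • a.act x (a.rep m)) :
    m = m' := by
  rw [← Quotient.out_eq m, ← Quotient.out_eq m']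
  exact Quotient.sound ⟨x, c, hc, h⟩

/-- the points -/
noncomputable def pt (p : {x // t.T x} × a.S) : F × F := a.act p.1 (a.rep p.2)

theorem pt_ne (p : {x // t.T x} × a.S) : a.pt p ≠ 0 := a.act_ne (a.rep_ne _)

theorem pt_inj {p p' : {x // t.T x} × a.S} {c : F} (hc : c ≠ 0) (h : a.pt p' = c • a.pt p) :
    p = p' := by
  obtain ⟨x, m⟩ := p
  obtain ⟨y, m'⟩ := p'
  simp only [pt] at h
  have h1 : a.rep m' = c • a.act ((y : G)⁻¹ * x) (a.rep m) := by
    rw [a.am, ← a.as, ← h, a.inv_act]
  obtain rfl := a.rep_eq hc h1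
  have h2 : a.act ((y : G)⁻¹ * x) (a.rep m) = c⁻¹ • a.rep m := by
    conv_rhs => rw [h1]
    rw [smul_smul, inv_mul_cancel₀ hc, one_smul]
  rcases a.af _ _ _ (a.rep_ne m) h2 with h3 | h3
  · have : (y : G) = x := by
      rw [inv_mul_eq_one] at h3
      exact h3
    rw [Prod.mk.injEq]
    exact ⟨Subtype.ext this.symm, rfl⟩
  · exfalso
    have h4 : (x : G) = t.z * y := by
      rw [t.zc, ← h3]; group
    exact t.ne_zmul y.2 x.2 h4

theorem pt_surj (v : F × F) (hv : v ≠ 0) : ∃ p : {x // t.T x} × a.S, ∃ c : F, c ≠ 0 ∧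
    v = c • a.pt p := by
  have h1 : a.setoid.r (Quotient.out (Quotient.mk a.setoid ⟨v, hv⟩)) ⟨v, hv⟩ :=
    Quotient.exact (Quotient.out_eq _)
  obtain ⟨x, c, hc, h⟩ := h1
  simp only at h
  rcases t.T1 x with hx | hx
  · exact ⟨(⟨x, hx⟩, Quotient.mk a.setoid ⟨v, hv⟩), c, hc, h⟩
  · refine ⟨(⟨t.z * x, hx⟩, Quotient.mk a.setoid ⟨v, hv⟩), -c, neg_ne_zero.2 hc, ?_⟩
    simp only [pt]
    rw [a.am, a.az, smul_neg, neg_smul, neg_neg]
    exact h

variable [Fintype F] [DecidableEq F] [Fintype G] [DecidableEq G] [DecidablePred t.T]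
  [Fintype a.S] [DecidableEq a.S]

/-- the points and scalars give all nonzero vectors -/
noncomputable def eqv : ({x // t.T x} × a.S) × {c : F // c ≠ 0} ≃ X F :=
  Equiv.ofBijective (fun r => ⟨(r.2 : F) • a.pt r.1, smul_ne_zero r.2.2 (a.pt_ne _)⟩) (by
    constructor
    · rintro ⟨p, c, hc⟩ ⟨p', c', hc'⟩ h
      simp only [Subtype.mk.injEq] at h
      have h1 : a.pt p' = (c'⁻¹ * c) • a.pt p := by
        rw [← smul_smul, h, smul_smul, inv_mul_cancel₀ hc', one_smul]
      have h2 := a.pt_inj (mul_ne_zero (inv_ne_zero hc') hc) h1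
      subst h2
      have h3 : c = c' := by
        have h4 : (c - c') • a.pt p = 0 := by rw [sub_smul, h, sub_self]
        exact sub_eq_zero.1 ((smul_eq_zero.1 h4).resolve_right (a.pt_ne p))
      subst h3
      rfl
    · rintro ⟨v, hv⟩
      obtain ⟨p, c, hc, h⟩ := a.pt_surj v hv
      exact ⟨(p, ⟨c, hc⟩), Subtype.ext h.symm⟩)

theorem card_F_sub : (Fintype.card {c : F // c ≠ 0} : ℤ) = Fintype.card F - 1 := by
  have h := Fintype.card_subtype_compl (fun c : F => c = 0)
  have h1 : Fintype.card {c : F // ¬ c = 0} = Fintype.card F - 1 := by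
    rw [h]; simp
  have h2 : Fintype.card {c : F // c ≠ 0} = Fintype.card F - 1 := by
    rw [← h1]
  rw [h2, Nat.cast_sub Fintype.card_pos]
  simp

theorem card_X : (Fintype.card (X F) : ℤ) = (Fintype.card F : ℤ) ^ 2 - 1 := by
  have h := Fintype.card_subtype_compl (fun c : F × F => c = 0)
  have h1 : Fintype.card {c : F × F // ¬ c = 0} = Fintype.card F * Fintype.card F - 1 := by
    rw [h]; simp
  have h2 : Fintype.card (X F) = Fintype.card F * Fintype.card F - 1 := by
    rw [← h1]
  have h3 : 0 < Fintype.card F * Fintype.card F := Nat.mul_pos Fintype.card_pos Fintype.card_pos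
  rw [h2, Nat.cast_sub h3]
  push_cast
  ring

theorem card_mul : (Fintype.card {x // t.T x} : ℤ) * Fintype.card a.S = Fintype.card F + 1 := by
  have h := Fintype.card_congr a.eqv
  rw [Fintype.card_prod, Fintype.card_prod] at h
  have h1 : ((Fintype.card {x // t.T x} * Fintype.card a.S * Fintype.card {c : F // c ≠ 0} : ℕ) : ℤ)
      = (Fintype.card (X F) : ℤ) := by rw [h]
  push_cast at h1
  rw [card_F_sub, card_X] at h1
  have h2 : (Fintype.card F : ℤ) - 1 ≠ 0 := by
    have := Fintype.one_lt_card (α := F)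
    omega
  have h3 : ((Fintype.card F : ℤ) - 1) * ((Fintype.card {x // t.T x} : ℤ) * Fintype.card a.S -
      (Fintype.card F + 1)) = 0 := by linear_combination h1
  have h4 := (mul_eq_zero.1 h3).resolve_left h2
  linarith

/-- the conference matrix -/
noncomputable def C (p p' : {x // t.T x} × a.S) : ℤ := quadraticChar F (ph (a.pt p) (a.pt p'))

theorem C0 (p : {x // t.T x} × a.S) : a.C p p = 0 := by
  simp [C, ph_self]

theorem C1 (p p' : {x // t.T x} × a.S) (h : p ≠ p') : Sg (a.C p p') := by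
  apply quadraticChar_dichotomy
  intro h0
  obtain ⟨c, hc, h1⟩ := ph_eq_zero (a.pt_ne p) (a.pt_ne p') h0
  exact h (a.pt_inj hc h1)

theorem Cs (h4 : Fintype.card F % 4 = 3) (p p' : {x // t.T x} × a.S) : a.C p' p = - a.C p p' := by
  rw [C, C, ph_swap, chi3_neg h4]

theorem sum_pts (h : F × F → ℤ) (h0 : h 0 = 0) (hs : ∀ (c : F) v, c ≠ 0 → h (c • v) = h v) :
    ∑ v, h v = ((Fintype.card F : ℤ) - 1) * ∑ p, h (a.pt p) := by
  have h1 : ∑ v, h v = ∑ v : X F, h v := by
    have h2 := Fintype.sum_subtype_add_sum_subtype (fun v : F × F => v ≠ 0) h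
    rw [← h2]
    have h3 : ∑ v : {v : F × F // ¬ v ≠ 0}, h v = 0 := by
      apply sum_eq_zero
      rintro ⟨v, hv⟩ _
      rw [not_not] at hv
      simp [hv, h0]
    rw [h3, add_zero]
  rw [h1, ← Equiv.sum_comp a.eqv, Fintype.sum_prod_type, mul_sum]
  refine sum_congr rfl fun p _ => ?_
  have h2 : ∀ c : {c : F // c ≠ 0}, h (a.eqv (p, c) : X F) = h (a.pt p) := fun c => hs _ _ c.2
  rw [sum_congr rfl fun c _ => h2 c, sum_const, card_univ, nsmul_eq_mul, card_F_sub]

theorem CC (h4 : Fintype.card F % 4 = 3) (p p' : {x // t.T x} × a.S) :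
    ∑ z, a.C p z * a.C p' z = if p = p' then (Fintype.card F : ℤ) else 0 := by
  have h1 := a.sum_pts (fun v => quadraticChar F (ph (a.pt p) v) * quadraticChar F (ph (a.pt p') v))
    (by simp [ph]) (fun c v hc => by
      simp only [ph_smul, map_mul]
      linear_combination (quadraticChar F (ph (a.pt p) v) * quadraticChar F (ph (a.pt p') v)) *
        chi_sq hc)
  have h2 : (Fintype.card F : ℤ) - 1 ≠ 0 := by
    have := Fintype.one_lt_card (α := F)
    omega
  by_cases h : p = p'
  · subst h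
    rw [if_pos rfl]
    rw [sum_chi_ph1 (a.pt_ne p)] at h1
    have h3 : ((Fintype.card F : ℤ) - 1) * (∑ z, a.C p z * a.C p z - Fintype.card F) = 0 := by
      simp only [C]
      linear_combination -h1
    have h5 := (mul_eq_zero.1 h3).resolve_left h2
    linarith
  · rw [if_neg h]
    have h3 : ph (a.pt p) (a.pt p') ≠ 0 := by
      intro h0
      obtain ⟨c, hc, h1⟩ := ph_eq_zero (a.pt_ne p) (a.pt_ne p') h0
      exact h (a.pt_inj hc h1)
    rw [sum_chi_ph2 h4 h3] at h1
    exact (mul_eq_zero.1 h1.symm).resolve_left h2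

/-- the blocks -/
noncomputable def h (m m' : a.S) (x : G) : ℤ :=
  quadraticChar F (ph (a.rep m) (a.act x (a.rep m')))

theorem C_eq (x y : {x // t.T x}) (m m' : a.S) : a.C (x, m) (y, m') = a.h m m' ((x : G)⁻¹ * y) := by
  simp only [C, h, pt]
  rw [a.ph_act, a.am]

theorem h_z (h4 : Fintype.card F % 4 = 3) (m m' : a.S) (x : G) :
    a.h m m' (t.z * x) = - a.h m m' x := by
  simp only [h]
  rw [a.am, a.az, ← chi3_neg h4]
  congr 1
  simp only [ph, Prod.fst_neg, Prod.snd_neg]
  ring

theorem com (h4 : Fintype.card F % 4 = 3) (k : G → ℤ) (hk : ∀ x, k (t.z * x) = - k x)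
    (x y : {x // t.T x}) (m m' : a.S) :
    ∑ z : {x // t.T x}, a.C (x, m) (z, m') * k (z * (y : G)⁻¹) =
      ∑ z : {x // t.T x}, k (x * (z : G)⁻¹) * a.C (z, m) (y, m') := by
  simp only [C_eq]
  exact t.com_sum (a.h m m') k (a.h_z h4 m m') hk x y

end Act

end act

end Pool.Agent.H34PG
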