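import Pool.Agent.H34PG.Block

/-!
# Transversals and odd functions on a group with a central involution
-/

set_option autoImplicit false
set_option linter.unusedSectionVars false

namespace Pool.Agent.H34PG

open Finset
open Pool.Agent.Y342.SK (Sg)

/-- a fixed point free involution has a transversal -/
theorem exists_transversal {Ω : Type} [Fintype Ω] (σ : Ω → Ω) (h2 : ∀ x, σ (σ x) = x)
    (h1 : ∀ x, σ x ≠ x) :
    ∃ T : Ω → Prop, (∀ x, T x ∨ T (σ x)) ∧ (∀ x, T x → ¬ T (σ x)) := by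
  classical
  let e := Fintype.equivFin Ω
  refine ⟨fun x => e x < e (σ x), fun x => ?_, fun x h => ?_⟩
  · simp only [h2]
    rcases lt_trichotomy (e x) (e (σ x)) with h | h | h
    · exact Or.inl h
    · exact absurd (e.injective h).symm (h1 x)
    · exact Or.inr h
  · simp only [h2]
    exact not_lt.2 (le_of_lt h)

/-- sum over a transversal -/
theorem sum_transversal {Ω : Type} [Fintype Ω] (σ : Ω → Ω) (h2 : ∀ x, σ (σ x) = x)
    (T : Ω → Prop) [DecidablePred T] (hT1 : ∀ x, T x ∨ T (σ x)) (hT2 : ∀ x, T x → ¬ T (σ x))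
    (φ : Ω → ℤ) (hφ : ∀ x, φ (σ x) = φ x) : ∑ x, φ x = 2 * ∑ x : {x // T x}, φ x := by
  rw [← Fintype.sum_subtype_add_sum_subtype (fun x => T x) φ]
  have h : ∑ x : {x // ¬ T x}, φ x = ∑ x : {x // T x}, φ x := by
    let e : {x // ¬ T x} ≃ {x // T x} :=
      { toFun := fun x => ⟨σ x, (hT1 x).resolve_left x.2⟩
        invFun := fun x => ⟨σ x, hT2 x x.2⟩
        left_inv := fun x => by ext; simp [h2]
        right_inv := fun x => by ext; simp [h2] }
    rw [← Equiv.sum_comp e]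
    exact sum_congr rfl fun x _ => (hφ x).symm
  rw [h]
  ring

section group

variable {G : Type} [Group G] [Fintype G] [DecidableEq G]

/-- a central involution with a transversal of its cosets -/
structure Tr (G : Type) [Group G] where
  z : G
  zz : z * z = 1
  zc : ∀ x, z * x = x * z
  T : G → Prop
  T1 : ∀ x, T x ∨ T (z * x)
  T2 : ∀ x, T x → ¬ T (z * x)

namespace Tr

variable (t : Tr G)

theorem sum (φ : G → ℤ) [DecidablePred t.T] (hφ : ∀ x, φ (t.z * x) = φ x) :
    ∑ x, φ x = 2 * ∑ x : {x // t.T x}, φ x :=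
  sum_transversal (fun x => t.z * x) (fun x => by rw [← mul_assoc, t.zz, one_mul]) t.T t.T1 t.T2
    φ hφ

theorem card [DecidablePred t.T] : (Fintype.card G : ℤ) = 2 * Fintype.card {x // t.T x} := by
  have h := t.sum (fun _ => 1) (fun _ => rfl)
  simpa using h

omit [Fintype G] [DecidableEq G] in
theorem ne_zmul {a b : G} (ha : t.T a) (hb : t.T b) : b ≠ t.z * a := fun h => t.T2 a ha (h ▸ hb)

omit [Fintype G] [DecidableEq G] in
theorem zinv : t.z⁻¹ = t.z := inv_eq_of_mul_eq_one_left t.zz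

theorem com_sum [DecidablePred t.T] (h k : G → ℤ) (hh : ∀ x, h (t.z * x) = - h x)
    (hk : ∀ x, k (t.z * x) = - k x) (a b : G) :
    ∑ y : {x // t.T x}, h (a⁻¹ * y) * k (y * b⁻¹) =
      ∑ y : {x // t.T x}, k (a * (y : G)⁻¹) * h ((y : G)⁻¹ * b) := by
  have e1 := t.sum (fun y => h (a⁻¹ * y) * k (y * b⁻¹)) (fun x => by
    have e2 : a⁻¹ * (t.z * x) = t.z * (a⁻¹ * x) := by
      rw [← mul_assoc, ← mul_assoc, t.zc]
    rw [e2, hh, mul_assoc, hk]
    ring)
  have e3 := t.sum (fun y => k (a * y⁻¹) * h (y⁻¹ * b)) (fun x => by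
    have e2 : a * (t.z * x)⁻¹ = t.z * (a * x⁻¹) := by
      rw [mul_inv_rev, t.zinv, ← mul_assoc, t.zc]
    have e4 : (t.z * x)⁻¹ * b = t.z * (x⁻¹ * b) := by
      rw [mul_inv_rev, t.zinv, ← t.zc, mul_assoc]
    rw [e2, e4, hh, hk]
    ring)
  have e5 : ∑ y, h (a⁻¹ * y) * k (y * b⁻¹) = ∑ u, h u * k (a * u * b⁻¹) := by
    rw [← Equiv.sum_comp (Equiv.mulLeft a)]
    refine sum_congr rfl fun u _ => ?_
    simp only [Equiv.coe_mulLeft, inv_mul_cancel_left]
  have e6 : ∑ y, k (a * y⁻¹) * h (y⁻¹ * b) = ∑ u, h u * k (a * u * b⁻¹) := by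
    rw [← Equiv.sum_comp ((Equiv.inv G).trans (Equiv.mulLeft b))]
    refine sum_congr rfl fun u _ => ?_
    simp only [Equiv.trans_apply, Equiv.inv_apply, Equiv.coe_mulLeft, mul_inv_rev, inv_inv,
      mul_assoc, inv_mul_cancel, mul_one]
    ring
  rw [e5] at e1
  rw [e6] at e3
  linarith

theorem ff [DecidablePred t.T] (k : G → ℤ) (k1 : ∀ x, Sg (k x))
    (hk : ∀ x, k (t.z * x) = - k x) (kl : ∀ w, w ≠ 1 → w ≠ t.z → ∑ x, k x * k (w * x) = 0)
    (a b : {x // t.T x}) :
    ∑ y : {x // t.T x}, k (a * (y : G)⁻¹) * k (b * (y : G)⁻¹) =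
      if a = b then (Fintype.card {x // t.T x} : ℤ) else 0 := by
  by_cases hab : a = b
  · subst hab
    rw [if_pos rfl]
    rw [sum_congr rfl fun y _ => Sg.sq' (k1 _)]
    simp
  · rw [if_neg hab]
    have e1 := t.sum (fun y => k (a * y⁻¹) * k (b * y⁻¹)) (fun x => by
      have e2 : ∀ a, a * (t.z * x)⁻¹ = t.z * (a * x⁻¹) := fun a => by
        rw [mul_inv_rev, t.zinv, ← mul_assoc, t.zc]
      rw [e2, e2, hk, hk]
      ring)
    have e3 : ∑ y, k (a * y⁻¹) * k (b * y⁻¹) = ∑ u, k u * k ((b * (a : G)⁻¹) * u) := by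
      rw [← Equiv.sum_comp ((Equiv.inv G).trans (Equiv.mulRight (a : G)))]
      refine sum_congr rfl fun u _ => ?_
      simp only [Equiv.trans_apply, Equiv.inv_apply, Equiv.coe_mulRight, mul_inv_rev, inv_inv,
        mul_inv_cancel_left, mul_assoc]
    rw [kl] at e3
    · rw [e3] at e1
      linarith
    · intro h
      apply hab
      ext
      exact (mul_inv_eq_one.1 h).symm
    · intro h
      have h' : (b : G) = t.z * a := by rw [← h]; group
      exact t.ne_zmul a.2 b.2 h'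

theorem ff' [DecidablePred t.T] (k : G → ℤ) (k1 : ∀ x, Sg (k x))
    (hk : ∀ x, k (t.z * x) = - k x) (kr : ∀ w, w ≠ 1 → w ≠ t.z → ∑ x, k x * k (x * w) = 0)
    (a b : {x // t.T x}) :
    ∑ y : {x // t.T x}, k (y * (a : G)⁻¹) * k (y * (b : G)⁻¹) =
      if a = b then (Fintype.card {x // t.T x} : ℤ) else 0 := by
  by_cases hab : a = b
  · subst hab
    rw [if_pos rfl]
    rw [sum_congr rfl fun y _ => Sg.sq' (k1 _)]
    simp
  · rw [if_neg hab]
    have e1 := t.sum (fun y => k (y * (a : G)⁻¹) * k (y * (b : G)⁻¹)) (fun x => by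
      rw [mul_assoc, mul_assoc, hk, hk]
      ring)
    have e3 : ∑ y, k (y * (a : G)⁻¹) * k (y * (b : G)⁻¹) =
        ∑ u, k u * k (u * (a * (b : G)⁻¹)) := by
      rw [← Equiv.sum_comp (Equiv.mulRight (a : G))]
      refine sum_congr rfl fun u _ => ?_
      simp only [Equiv.coe_mulRight, mul_inv_cancel, mul_one, mul_assoc]
    rw [kr] at e3
    · rw [e3] at e1
      linarith
    · intro h
      apply hab
      ext
      exact mul_inv_eq_one.1 h
    · intro h
      have h' : (a : G) = t.z * b := by rw [← h]; group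
      exact t.ne_zmul b.2 a.2 h'

end Tr

end group

end Pool.Agent.H34PG
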